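import Pool.Agent.Q9h3.RO.Mach

/-!
# Machines with few states on a stack of expanding layers

The vertices contain layers of `n` roots. To meet many roots of a layer, while few roots of the
preceding layer are met, a run must guess many labels; since the number of states is small, it has
to meet many roots of the preceding layer again and again.
-/

namespace Pool.Agent.Q9h3.ROC

variable {M m : ℕ} (ch : Fin M → Bool → Fin M) (d : Lb m)

/-- The properties of a stack of layers `0, …, k` of `n` roots, with a final vertex `z`. -/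
structure IsStack (n k Gp : ℕ) (root : ℕ → Fin n → Fin M) (z : Fin M) : Prop where
  inj : Function.Injective (root 0)
  layer : ∀ j < k, ∀ H : Finset (Fin M),
    2 * Gp ≤ (Finset.univ.filter fun i : Fin n => root (j + 1) i ∈ H).card →
    2 * Gp ≤ (Finset.univ.filter fun i : Fin n => root j i ∉ H).card → Front ch H Gp
  final : ∀ H : Finset (Fin M), z ∈ H → (∃ i : Fin n, root k i ∉ H) → Front ch H 1

open Classical in
/-- the functions for which the run from the state `σ` at time `t` meets at least `h` roots of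
layer `j` in `T` steps -/
noncomputable def bad (K : Mach M m) {n : ℕ} (root : ℕ → Fin n → Fin M) (h T j t : ℕ)
    (σ : K.St) : Finset (Pt M m → Lb m) :=
  Finset.univ.filter fun f =>
    h ≤ (Finset.univ.filter fun i : Fin n => root j i ∈ K.hit ch d f t σ T).card

variable {ch}

open Classical in
theorem bad_succ (K : Mach M m) {n k Gp : ℕ} {root : ℕ → Fin n → Fin M} {z : Fin M}
    (hS : IsStack ch n k Gp root z) {B T : ℕ} (hBpos : 0 < B) (hB : (B + 1) * (2 * Gp) ≤ n)
    {j : ℕ} (hj : j < k) (t : ℕ) (σ : K.St) (hσ : σ ∈ K.R t) :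
    bad ch d K root (B * (2 * Gp)) (B * T) (j + 1) t σ ⊆
      (Finset.range B).biUnion fun u => (K.R (t + u * T)).biUnion fun σ' =>
        bad ch d K root (B * (2 * Gp)) T j (t + u * T) σ' ∪
          Finset.univ.filter fun f => Front ch (K.hit ch d f (t + u * T) σ' T) Gp := by
  intro f hf
  have hf := (Finset.mem_filter.1 hf).2
  by_cases hcase : ∀ u < B, (Finset.univ.filter fun i : Fin n => root (j + 1) i ∈
      K.hit ch d f (t + u * T) (K.run f t σ (u * T)) T).card < 2 * Gp
  · exfalso
    have hsub : (Finset.univ.filter fun i : Fin n => root (j + 1) i ∈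
        K.hit ch d f t σ (B * T)) ⊆ (Finset.range B).biUnion fun u =>
        (Finset.univ.filter fun i : Fin n => root (j + 1) i ∈
          K.hit ch d f (t + u * T) (K.run f t σ (u * T)) T) := by
      intro i hi
      obtain ⟨u, hu, h⟩ := K.mem_hit_mul ch d f t σ B T _ (Finset.mem_filter.1 hi).2
      exact Finset.mem_biUnion.2 ⟨u, Finset.mem_range.2 hu,
        Finset.mem_filter.2 ⟨Finset.mem_univ _, h⟩⟩
    have h1 : (Finset.univ.filter fun i : Fin n => root (j + 1) i ∈
        K.hit ch d f t σ (B * T)).card < B * (2 * Gp) :=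
      calc _ ≤ _ := Finset.card_le_card hsub
        _ ≤ ∑ u ∈ Finset.range B, _ := Finset.card_biUnion_le
        _ < ∑ _u ∈ Finset.range B, 2 * Gp :=
            Finset.sum_lt_sum_of_nonempty (Finset.nonempty_range_iff.2 (by omega))
              fun u hu => hcase u (Finset.mem_range.1 hu)
        _ = B * (2 * Gp) := by rw [Finset.sum_const, Finset.card_range, smul_eq_mul]
    omega
  · push Not at hcase
    obtain ⟨u, hu, h1⟩ := hcase
    refine Finset.mem_biUnion.2 ⟨u, Finset.mem_range.2 hu, Finset.mem_biUnion.2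
      ⟨K.run f t σ (u * T), K.run_mem f t σ hσ _, ?_⟩⟩
    rw [Finset.mem_union]
    by_cases h2 : B * (2 * Gp) ≤ (Finset.univ.filter fun i : Fin n => root j i ∈
        K.hit ch d f (t + u * T) (K.run f t σ (u * T)) T).card
    · exact Or.inl (Finset.mem_filter.2 ⟨Finset.mem_univ _, h2⟩)
    · refine Or.inr (Finset.mem_filter.2 ⟨Finset.mem_univ _, hS.layer j hj _ h1 ?_⟩)
      have h3 := Finset.card_filter_add_card_filter_not (s := (Finset.univ : Finset (Fin n)))
        (fun i : Fin n => root j i ∈ K.hit ch d f (t + u * T) (K.run f t σ (u * T)) T)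
      rw [Finset.card_univ, Fintype.card_fin] at h3
      have h4 : (B + 1) * (2 * Gp) = B * (2 * Gp) + 2 * Gp := by ring
      omega

open Classical in
theorem bad_zero (K : Mach M m) {n k Gp : ℕ} {root : ℕ → Fin n → Fin M} {z : Fin M}
    (hS : IsStack ch n k Gp root z) {h : ℕ} (hh : 2 ≤ h) (t : ℕ) (σ : K.St) :
    bad ch d K root h 1 0 t σ = ∅ := by
  refine Finset.filter_eq_empty_iff.2 fun f _ hf => ?_
  have h1 : 1 < (Finset.univ.filter fun i : Fin n => root 0 i ∈ K.hit ch d f t σ 1).card := by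
    omega
  obtain ⟨i, hi, i', hi', hne⟩ := Finset.one_lt_card.1 h1
  have hi := (K.mem_hit ch d f t σ 1 _).1 (Finset.mem_filter.1 hi).2
  have hi' := (K.mem_hit ch d f t σ 1 _).1 (Finset.mem_filter.1 hi').2
  obtain ⟨u, hu, j, hq⟩ := hi
  obtain ⟨u', hu', j', hq'⟩ := hi'
  have e : u' = u := by omega
  subst e
  rw [hq] at hq'
  exact hne (hS.inj (congrArg (fun p => p.1.1) (Option.some.inj hq')))

/-- the bound for the number of functions with too many roots of layer `j` -/
noncomputable def cnt (B N' lam : ℝ) : ℕ → ℝ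
  | 0 => 0
  | j + 1 => B * (N' * (cnt B N' lam j + lam))

theorem cnt_nonneg {B N' lam : ℝ} (hB : 0 ≤ B) (hN : 0 ≤ N') (hl : 0 ≤ lam) :
    ∀ j, 0 ≤ cnt B N' lam j
  | 0 => le_rfl
  | j + 1 => by
    have := cnt_nonneg hB hN hl j
    show 0 ≤ B * (N' * (cnt B N' lam j + lam))
    positivity

theorem cnt_le {B N' lam : ℝ} (hB : 1 ≤ B) (hN : 1 ≤ N') (hl : 0 ≤ lam) :
    ∀ j : ℕ, cnt B N' lam j ≤ j * (B * N') ^ j * lam
  | 0 => by
    show (0 : ℝ) ≤ _
    simp
  | j + 1 => by
    have ih := cnt_le hB hN hl j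
    have h1 : (1 : ℝ) ≤ B * N' := by nlinarith
    have h2 : (1 : ℝ) ≤ (B * N') ^ j := one_le_pow₀ h1
    show B * (N' * (cnt B N' lam j + lam)) ≤ _
    calc B * (N' * (cnt B N' lam j + lam)) = (B * N') * (cnt B N' lam j + lam) := by ring
      _ ≤ (B * N') * (j * (B * N') ^ j * lam + (B * N') ^ j * lam) := by
        refine mul_le_mul_of_nonneg_left ?_ (by linarith)
        have : lam ≤ (B * N') ^ j * lam := le_mul_of_one_le_left hl h2
        linarith
      _ = _ := by push_cast; ring

open Classical in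
theorem bad_count (K : Mach M m) {n k Gp : ℕ} {root : ℕ → Fin n → Fin M} {z : Fin M}
    (hS : IsStack ch n k Gp root z) (hGp : 0 < Gp) {B : ℕ} (hBpos : 0 < B)
    (hB : (B + 1) * (2 * Gp) ≤ n) {N' : ℕ} (hN : ∀ t, (K.R t).card ≤ N') :
    ∀ j ≤ k, ∀ t, ∀ σ ∈ K.R t,
      ((bad ch d K root (B * (2 * Gp)) (B ^ j) j t σ).card : ℝ) ≤
        cnt B N' ((M * B ^ k / 2 ^ m) ^ Gp) j * Fintype.card (Pt M m → Lb m) := by
  intro j
  induction j with
  | zero =>
    intro _ t σ _
    have h2 : 2 ≤ B * (2 * Gp) := by nlinarith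
    rw [pow_zero, bad_zero d K hS h2]
    simp [cnt]
  | succ j ih =>
    intro hj t σ hσ
    set lam : ℝ := ((M : ℝ) * (B : ℝ) ^ k / 2 ^ m) ^ Gp with hlam
    set F : ℝ := (Fintype.card (Pt M m → Lb m) : ℝ) with hF
    have hB1 : (1 : ℝ) ≤ B := by exact_mod_cast hBpos
    have hfront : ∀ t σ, ((Finset.univ.filter fun f : Pt M m → Lb m =>
        Front ch (K.hit ch d f t σ (B ^ j)) Gp).card : ℝ) ≤ lam * F := by
      intro t σ
      have h1 := K.front_count ch d t σ (B ^ j) Gp
      have h2 : ((Finset.univ.filter fun f : Pt M m → Lb m =>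
        Front ch (K.hit ch d f t σ (B ^ j)) Gp).card : ℝ) * (2 ^ m) ^ Gp ≤
          (M * (B : ℝ) ^ j) ^ Gp * F := by rw [hF]; exact_mod_cast h1
      have h3 : (M * (B : ℝ) ^ j) ^ Gp * F ≤ (M * (B : ℝ) ^ k) ^ Gp * F := by
        refine mul_le_mul_of_nonneg_right (pow_le_pow_left₀ (by positivity) ?_ _) (by positivity)
        exact mul_le_mul_of_nonneg_left (pow_le_pow_right₀ hB1 (by omega)) (by positivity)
      have h4 : lam * F * (2 ^ m) ^ Gp = (M * (B : ℝ) ^ k) ^ Gp * F := by
        rw [hlam, div_pow]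
        field_simp
      have h5 : (0 : ℝ) < (2 ^ m) ^ Gp := by positivity
      nlinarith [h2.trans h3, h4, h5]
    have h0 := bad_succ d K hS hBpos hB (T := B ^ j) (j := j) (by omega) t σ hσ
    rw [← pow_succ'] at h0
    have h1 : ((bad ch d K root (B * (2 * Gp)) (B ^ (j + 1)) (j + 1) t σ).card : ℝ) ≤
        ∑ u ∈ Finset.range B, ∑ σ' ∈ K.R (t + u * B ^ j),
          (((bad ch d K root (B * (2 * Gp)) (B ^ j) j (t + u * B ^ j) σ').card : ℝ) +
          ((Finset.univ.filter fun f => Front ch (K.hit ch d f (t + u * B ^ j) σ' (B ^ j)) Gp).card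
            : ℝ)) := by
      have := (Finset.card_le_card h0).trans (Finset.card_biUnion_le.trans (Finset.sum_le_sum
        fun u _ => Finset.card_biUnion_le.trans (Finset.sum_le_sum fun σ' _ =>
          Finset.card_union_le _ _)))
      exact_mod_cast this
    refine h1.trans ?_
    have h2 : ∀ u ∈ Finset.range B, ∑ σ' ∈ K.R (t + u * B ^ j),
          (((bad ch d K root (B * (2 * Gp)) (B ^ j) j (t + u * B ^ j) σ').card : ℝ) +
          ((Finset.univ.filter fun f => Front ch (K.hit ch d f (t + u * B ^ j) σ' (B ^ j)) Gp).card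
            : ℝ)) ≤ N' * ((cnt B N' lam j + lam) * F) := by
      intro u _
      calc _ ≤ ∑ _σ' ∈ K.R (t + u * B ^ j), (cnt B N' lam j * F + lam * F) :=
            Finset.sum_le_sum fun σ' hσ' => add_le_add (ih (by omega) _ σ' hσ') (hfront _ σ')
        _ = (K.R (t + u * B ^ j)).card * ((cnt B N' lam j + lam) * F) := by
            rw [Finset.sum_const, nsmul_eq_mul]; ring
        _ ≤ N' * ((cnt B N' lam j + lam) * F) := by
            refine mul_le_mul_of_nonneg_right (by exact_mod_cast hN _) ?_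
            have : 0 ≤ lam := by positivity
            have := cnt_nonneg (B := B) (N' := N') (lam := lam) (by positivity) (by positivity)
              this j
            positivity
    calc _ ≤ ∑ _u ∈ Finset.range B, (N' : ℝ) * ((cnt B N' lam j + lam) * F) :=
          Finset.sum_le_sum h2
      _ = _ := by
          rw [Finset.sum_const, Finset.card_range, nsmul_eq_mul]
          show _ = B * (N' * (cnt B N' lam j + lam)) * F
          ring

open Classical in
/-- a run which does not meet the final vertex knows its label with probability at most `1/2` -/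
theorem unhit_count (K : Mach M m) (σ : K.St) (T : ℕ) (z : Fin M) (i₀ : Fin m)
    (o : K.St → Bool) :
    2 * (Finset.univ.filter fun f : Pt M m → Lb m => z ∉ K.hit ch d f 0 σ T ∧
      o (K.run f 0 σ T) = lab ch d f z i₀).card ≤ Fintype.card (Pt M m → Lb m) := by
  classical
  set E := Finset.univ.filter fun f : Pt M m → Lb m => z ∉ K.hit ch d f 0 σ T ∧
      o (K.run f 0 σ T) = lab ch d f z i₀ with hE
  let fl : Lb m → Lb m := fun l => Function.update l i₀ (!(l i₀))
  have hfl : ∀ l, fl (fl l) = l := by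
    intro l
    funext i
    by_cases hi : i = i₀
    · subst hi; simp [fl]
    · simp [fl, hi]
  let Φ : (Pt M m → Lb m) → (Pt M m → Lb m) := fun f =>
    modify f (fun _ : Fin 1 => pt ch d f z) (fun _ => fl (f (pt ch d f z)))
  have hinj1 : ∀ p : Pt M m, Function.Injective (fun _ : Fin 1 => p) := fun p i j _ =>
    Subsingleton.elim i j
  have hat : ∀ f, Φ f (pt ch d f z) = fl (f (pt ch d f z)) := fun f =>
    modify_at f (hinj1 _) _ 0
  have hoff : ∀ f x, pt ch d f z ≠ x → Φ f x = f x := fun f x hx => modify_off f _ _ fun _ => hx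
  have hanti : Anti ch (fun _ : Fin 1 => z) := fun i j _ => Subsingleton.elim i j
  have hpt : ∀ f, pt ch d (Φ f) z = pt ch d f z := fun f =>
    pts_inv d hanti f (Φ f) (fun x hx => hoff f x (hx 0)) 0
  have hΦ : ∀ f, Φ (Φ f) = f := by
    intro f
    funext x
    by_cases hx : pt ch d f z = x
    · subst hx
      rw [← hpt f, hat (Φ f), hpt f, hat f, hfl]
    · rw [hoff (Φ f) x (by rw [hpt f]; exact hx), hoff f x hx]
  have himg : E.image Φ ⊆ Eᶜ := by
    intro f' hf'
    obtain ⟨f, hf, rfl⟩ := Finset.mem_image.1 hf'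
    obtain ⟨-, h1, h2⟩ := Finset.mem_filter.1 hf
    rw [Finset.mem_compl]
    intro h3
    obtain ⟨-, h4, h5⟩ := Finset.mem_filter.1 h3
    have hrun : K.run (Φ f) 0 σ T = K.run f 0 σ T := by
      refine K.run_congr 0 σ T (fun u hu p i hq => hoff f p fun hp => h1 ?_) T le_rfl
      rw [K.mem_hit]
      exact ⟨u, hu, i, by rw [hq, hp]⟩
    rw [hrun, h2, lab_eq, lab_eq, hpt f, hat f] at h5
    have : fl (f (pt ch d f z)) i₀ = !(f (pt ch d f z) i₀) := by simp [fl]
    rw [this] at h5
    cases h6 : f (pt ch d f z) i₀ <;> rw [h6] at h5 <;> exact absurd h5 (by decide)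
  have hc := Finset.card_le_card himg
  rw [Finset.card_image_of_injective _ (fun f f' h => by rw [← hΦ f, ← hΦ f', h]),
    Finset.card_compl] at hc
  have := Finset.card_le_univ E
  omega

open Classical in
/-- A machine with at most `N'` states at every time, running for at most `B ^ k` steps, knows the
label of the final vertex with probability little more than `1/2`. -/
theorem mach_bound (K : Mach M m) {n k Gp : ℕ} {root : ℕ → Fin n → Fin M} {z : Fin M}
    (hS : IsStack ch n k Gp root z) (hGp : 0 < Gp) {B : ℕ} (hBpos : 0 < B)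
    (hB : (B + 1) * (2 * Gp) ≤ n) {N' : ℕ} (hN : ∀ t, (K.R t).card ≤ N')
    (σ : K.St) (hσ : σ ∈ K.R 0) (T : ℕ) (hT : T ≤ B ^ k) (i₀ : Fin m) (o : K.St → Bool) :
    ((Finset.univ.filter fun f : Pt M m → Lb m => o (K.run f 0 σ T) = lab ch d f z i₀).card : ℝ) ≤
      (1 / 2 + cnt B N' ((M * B ^ k / 2 ^ m) ^ Gp) k + M * B ^ k / 2 ^ m) *
        Fintype.card (Pt M m → Lb m) := by
  set F : ℝ := (Fintype.card (Pt M m → Lb m) : ℝ) with hF
  have hsub : (Finset.univ.filter fun f : Pt M m → Lb m =>
      o (K.run f 0 σ T) = lab ch d f z i₀) ⊆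
      (Finset.univ.filter fun f : Pt M m → Lb m => z ∉ K.hit ch d f 0 σ T ∧
        o (K.run f 0 σ T) = lab ch d f z i₀) ∪
      (bad ch d K root (B * (2 * Gp)) (B ^ k) k 0 σ ∪
        Finset.univ.filter fun f : Pt M m → Lb m => Front ch (K.hit ch d f 0 σ (B ^ k)) 1) := by
    intro f hf
    have hf := (Finset.mem_filter.1 hf).2
    rw [Finset.mem_union, Finset.mem_union]
    by_cases h1 : z ∈ K.hit ch d f 0 σ T
    · right
      by_cases h2 : ∃ i : Fin n, root k i ∉ K.hit ch d f 0 σ (B ^ k)
      · right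
        exact Finset.mem_filter.2 ⟨Finset.mem_univ _,
          hS.final _ (K.hit_mono ch d f 0 σ hT h1) h2⟩
      · left
        refine Finset.mem_filter.2 ⟨Finset.mem_univ _, ?_⟩
        push Not at h2
        rw [Finset.filter_true_of_mem fun i _ => h2 i, Finset.card_univ, Fintype.card_fin]
        refine le_trans ?_ hB
        exact Nat.mul_le_mul_right _ (by omega)
    · left
      exact Finset.mem_filter.2 ⟨Finset.mem_univ _, h1, hf⟩
  have h1 := (Finset.card_le_card hsub).trans ((Finset.card_union_le _ _).trans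
    (Nat.add_le_add_left (Finset.card_union_le _ _) _))
  have h2 := unhit_count (ch := ch) d K σ T z i₀ o
  have h3 := bad_count d K hS hGp hBpos hB hN k le_rfl 0 σ hσ
  have h4 := K.front_count ch d 0 σ (B ^ k) 1
  rw [pow_one, pow_one] at h4
  have h4' : ((Finset.univ.filter fun f : Pt M m → Lb m =>
      Front ch (K.hit ch d f 0 σ (B ^ k)) 1).card : ℝ) * 2 ^ m ≤ (M * (B : ℝ) ^ k) * F := by
    rw [hF]; exact_mod_cast h4
  have h5 : ((Finset.univ.filter fun f : Pt M m → Lb m =>
      Front ch (K.hit ch d f 0 σ (B ^ k)) 1).card : ℝ) ≤ (M * (B : ℝ) ^ k / 2 ^ m) * F := by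
    rw [div_mul_eq_mul_div, le_div_iff₀ (by positivity)]
    exact h4'
  have h2' : 2 * ((Finset.univ.filter fun f : Pt M m → Lb m => z ∉ K.hit ch d f 0 σ T ∧
      o (K.run f 0 σ T) = lab ch d f z i₀).card : ℝ) ≤ F := by rw [hF]; exact_mod_cast h2
  have h1' : ((Finset.univ.filter fun f : Pt M m → Lb m =>
      o (K.run f 0 σ T) = lab ch d f z i₀).card : ℝ) ≤
      ((Finset.univ.filter fun f : Pt M m → Lb m => z ∉ K.hit ch d f 0 σ T ∧
        o (K.run f 0 σ T) = lab ch d f z i₀).card : ℝ) +
      (((bad ch d K root (B * (2 * Gp)) (B ^ k) k 0 σ).card : ℝ) +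
      ((Finset.univ.filter fun f : Pt M m → Lb m =>
        Front ch (K.hit ch d f 0 σ (B ^ k)) 1).card : ℝ)) := by exact_mod_cast h1
  linarith

end Pool.Agent.Q9h3.ROC
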