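import Pool.Agent.Q9h3.RO.Sim
import Pool.Agent.Q9h3.RO.Stack

/-!
# Circuits which carry few bits over oracle gates are machines with few states
-/

namespace Pool.Agent.Q9h3.ROC

open Pool.Agent.H628R3.RO (Oracle)

variable {n s Q q M m : ℕ}

theorem Gate.str_none {g : Gate n s Q} (h : ¬ g.IsOracle) (x : Fin n → Bool)
    (v : Fin s → Bool) : g.str x v = none := by
  cases g with
  | not a => rfl
  | and a b => rfl
  | or a b => rfl
  | query k a => exact absurd trivial h

open Classical in
/-- the time after the last oracle gate before time `t` -/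
noncomputable def Circuit.last (C : Circuit n s Q) : ℕ → ℕ
  | 0 => 0
  | t + 1 => if ∃ h : t < s, (C.gate ⟨t, h⟩).IsOracle then t + 1 else C.last t

theorem Circuit.last_le (C : Circuit n s Q) : ∀ t, C.last t ≤ t
  | 0 => le_rfl
  | t + 1 => by
    unfold Circuit.last
    split_ifs
    · exact le_rfl
    · exact (C.last_le t).trans (Nat.le_succ t)

theorem Circuit.not_oracle (C : Circuit n s Q) : ∀ t, ∀ g : Fin s, C.last t ≤ g.val → g.val < t →
    ¬ (C.gate g).IsOracle
  | 0, g, _, h => absurd h (Nat.not_lt_zero _)
  | t + 1, g, h1, h2 => by
    unfold Circuit.last at h1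
    split_ifs at h1 with h3
    · omega
    · by_cases h4 : g.val = t
      · intro h5
        exact h3 ⟨h4 ▸ g.2, by
          have : (⟨t, h4 ▸ g.2⟩ : Fin s) = g := Fin.ext h4.symm
          rw [this]; exact h5⟩
      · exact C.not_oracle t g h1 (by omega)

theorem Circuit.live_last (C : Circuit n s Q) {w : ℕ} (hC : C.CarryLE w) :
    ∀ t, (C.live (C.last t)).card ≤ w
  | 0 => by
    have : C.live (C.last 0) = ∅ := by
      ext h
      rw [mem_live]
      constructor
      · rintro ⟨h1, -⟩
        exact absurd h1 (Nat.not_lt_zero _)
      · intro h1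
        exact absurd h1 (Finset.notMem_empty _)
    rw [this]
    exact Nat.zero_le _
  | t + 1 => by
    unfold Circuit.last
    split_ifs with h
    · obtain ⟨h1, h2⟩ := h
      exact hC ⟨t, h1⟩ h2
    · exact C.live_last hC t

/-- The values of the gates, computed from the values `σ` at time `L`, when the value of gate
number `t` is `a`. -/
def Circuit.ext (C : Circuit n s Q) (A : Oracle) (x : Fin n → Bool) (L : ℕ) (σ : Fin s → Bool)
    (t : ℕ) (a : Bool) (h : Fin s) : Bool :=
  if h.val < L then σ h
  else if h.val = t then a
  else (C.gate h).val A x fun h' => if _hh : h' < h then C.ext A x L σ t a h' else false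
termination_by h.val
decreasing_by exact _hh

theorem Circuit.ext_eq (C : Circuit n s Q) {A A' : Oracle} {x : Fin n → Bool} {t : ℕ}
    {σ : Fin s → Bool} {a : Bool}
    (hσ : ∀ h ∈ C.live (C.last t), σ h = C.val A' x h) (h : Fin s) :
    (h ∈ C.live (C.last t) ∨ (C.last t ≤ h.val ∧ h.val < t) ∨
      (h.val = t ∧ a = C.val A' x h)) → C.ext A x (C.last t) σ t a h = C.val A' x h := by
  induction h using WellFoundedLT.induction with
  | ind h ih =>
    intro hh
    unfold Circuit.ext
    by_cases h1 : h.val < C.last t
    · rw [if_pos h1]
      rcases hh with hh | hh | hh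
      · exact hσ h hh
      · omega
      · have := C.last_le t
        omega
    · rw [if_neg h1]
      by_cases h2 : h.val = t
      · rw [if_pos h2]
        rcases hh with hh | hh | hh
        · exact absurd ((mem_live C _ _).1 hh).1 h1
        · omega
        · exact hh.2
      · rw [if_neg h2]
        have h3 : h.val < t := by
          rcases hh with hh | hh | hh
          · exact absurd ((mem_live C _ _).1 hh).1 h1
          · exact hh.2
          · omega
        have h4 : ¬ (C.gate h).IsOracle := C.not_oracle t h (by omega) h3
        rw [C.val_eq]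
        have h5 : ∀ g, Wire.gate g ∈ (C.gate h).args →
            (if _hh : g < h then C.ext A x (C.last t) σ t a g else false) =
              C.val A' x g := by
          intro g hg
          have hgh := C.earlier h g hg
          rw [dif_pos hgh]
          refine ih g hgh ?_
          have hgh' : g.val < h.val := hgh
          by_cases h6 : g.val < C.last t
          · left
            rw [mem_live]
            exact ⟨h6, Or.inl ⟨h, by omega, hg⟩⟩
          · right; left
            omega
        rw [Gate.val_congr _ h5]
        exact Gate.val_of_str_none (Gate.str_none h4 _ _)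

open Classical in
/-- The machine which evaluates a circuit; its state consists of the values which were live after
the last oracle gate. -/
noncomputable def carryMach (C : Circuit n s Q) (b : ℕ) (w : Fin q → Bool) (x : Fin n → Bool)
    (A : Oracle) : Mach M m where
  St := Fin s → Bool
  q t σ := if ht : t < s then
      quest b w x (C.gate ⟨t, ht⟩) (C.ext A x (C.last t) σ t false)
    else none
  nx t σ a := if ht : ∃ h : t < s, (C.gate ⟨t, h⟩).IsOracle then
      fun h => if h ∈ C.live (t + 1) then
        C.ext A x (C.last t) σ t
          (if (quest (M := M) (m := m) b w x (C.gate ⟨t, ht.1⟩)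
              (C.ext A x (C.last t) σ t false)).isSome then a
            else (C.gate ⟨t, ht.1⟩).val A x (C.ext A x (C.last t) σ t false)) h
        else false
    else σ
  R t := Fintype.piFinset fun h => if h ∈ C.live (C.last t) then Finset.univ else {false}
  closed t σ a hσ := by
    by_cases ht : ∃ h : t < s, (C.gate ⟨t, h⟩).IsOracle
    · rw [Fintype.mem_piFinset]
      intro h
      have hl : C.last (t + 1) = t + 1 := by
        unfold Circuit.last
        rw [if_pos ht]
      rw [hl, dif_pos ht]
      by_cases hh : h ∈ C.live (t + 1)
      · rw [if_pos hh]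
        exact Finset.mem_univ _
      · rw [if_neg hh, if_neg hh]
        exact Finset.mem_singleton_self _
    · have hl : C.last (t + 1) = C.last t := by
        conv_lhs => unfold Circuit.last
        rw [if_neg ht]
      rw [hl, dif_neg ht]
      exact hσ

theorem carryMach_card (C : Circuit n s Q) (b : ℕ) (w : Fin q → Bool) (x : Fin n → Bool)
    (A : Oracle) {W : ℕ} (hW : C.CarryLE W) (t : ℕ) :
    ((carryMach (M := M) (m := m) C b w x A).R t).card ≤ 2 ^ W := by
  classical
  show (Fintype.piFinset fun h => if h ∈ C.live (C.last t) then Finset.univ else {false}).card ≤ _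
  rw [Fintype.card_piFinset]
  have h1 : ∀ h : Fin s,
      (if h ∈ C.live (C.last t) then (Finset.univ : Finset Bool) else {false}).card =
      if h ∈ C.live (C.last t) then 2 else 1 := by
    intro h
    split_ifs <;> simp
  rw [Finset.prod_congr rfl fun h _ => h1 h, Finset.prod_ite, Finset.prod_const,
    Finset.prod_const_one, mul_one]
  refine Nat.pow_le_pow_right (by norm_num) ?_
  rw [Finset.filter_mem_eq_inter, Finset.univ_inter]
  exact C.live_last hW t

theorem carryMach_run (C : Circuit n s Q) {b : ℕ} (hb : M * m ≤ 2 ^ b) (w : Fin q → Bool)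
    (x : Fin n → Bool) (A : Oracle) (f : Pt M m → Lb m) (t : ℕ) :
    (carryMach C b w x A).run f 0 (fun _ => false) t =
      fun h => if h ∈ C.live (C.last t) then C.val (ovF b w f A) x h else false := by
  classical
  induction t with
  | zero =>
    funext h
    rw [if_neg]
    · rfl
    · rw [mem_live]
      rintro ⟨h1, -⟩
      exact absurd h1 (Nat.not_lt_zero _)
  | succ t ih =>
    set σ := (carryMach C b w x A).run f 0 (fun _ => false) t with hσ
    show (carryMach C b w x A).nx (0 + t) σ (ans f ((carryMach C b w x A).q (0 + t) σ)) = _
    rw [Nat.zero_add]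
    have hσ' : ∀ h ∈ C.live (C.last t), σ h = C.val (ovF b w f A) x h := by
      intro h hh
      rw [ih]
      exact if_pos hh
    by_cases ht : ∃ h : t < s, (C.gate ⟨t, h⟩).IsOracle
    · have hl : C.last (t + 1) = t + 1 := by
        conv_lhs => unfold Circuit.last
        rw [if_pos ht]
      have e1 : (carryMach C b w x A).nx t σ (ans f ((carryMach C b w x A).q t σ)) =
          fun h => if h ∈ C.live (t + 1) then
            C.ext A x (C.last t) σ t
              (if (quest (M := M) (m := m) b w x (C.gate ⟨t, ht.1⟩)
                (C.ext A x (C.last t) σ t false)).isSome then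
                (ans f ((carryMach C b w x A).q t σ))
              else (C.gate ⟨t, ht.1⟩).val A x (C.ext A x (C.last t) σ t false)) h
            else false := dif_pos ht
      rw [e1, hl]
      have e2 : (carryMach C b w x A).q t σ =
          quest b w x (C.gate ⟨t, ht.1⟩) (C.ext A x (C.last t) σ t false) := dif_pos ht.1
      rw [e2]
      have hargs : ∀ g, Wire.gate g ∈ (C.gate ⟨t, ht.1⟩).args →
          C.ext A x (C.last t) σ t false g = C.val (ovF b w f A) x g := by
        intro g hg
        have h3 : g.val < t := C.earlier ⟨t, ht.1⟩ g hg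
        refine C.ext_eq hσ' g ?_
        by_cases h6 : g.val < C.last t
        · left
          rw [mem_live]
          exact ⟨h6, Or.inl ⟨⟨t, ht.1⟩, C.last_le t, hg⟩⟩
        · right; left
          omega
      have hstr := Gate.str_congr (x := x) (C.gate ⟨t, ht.1⟩) hargs
      have hval := Gate.val_congr (A := A) (x := x) (C.gate ⟨t, ht.1⟩) hargs
      have hnew : (if (quest (M := M) (m := m) b w x (C.gate ⟨t, ht.1⟩)
                (C.ext A x (C.last t) σ t false)).isSome then
                (ans f (quest b w x (C.gate ⟨t, ht.1⟩) (C.ext A x (C.last t) σ t false)))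
              else (C.gate ⟨t, ht.1⟩).val A x (C.ext A x (C.last t) σ t false)) =
          C.val (ovF b w f A) x ⟨t, ht.1⟩ := by
        rw [C.val_eq]
        cases hqq : quest (M := M) (m := m) b w x (C.gate ⟨t, ht.1⟩)
            (C.ext A x (C.last t) σ t false) with
        | none =>
          show (C.gate ⟨t, ht.1⟩).val A x _ = _
          rw [hval]
          cases hs : (C.gate ⟨t, ht.1⟩).str x (C.val (ovF b w f A) x) with
          | none => exact Gate.val_of_str_none hs
          | some z =>
            rw [Gate.val_of_str hs, Gate.val_of_str hs]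
            have h4 := quest_none hqq (hstr.trans hs)
            exact (ovw_off _ A h4).symm
        | some p =>
          show f p.1 p.2 = _
          have h4 := (quest_some hb).1 hqq
          rw [hstr] at h4
          rw [Gate.val_of_str h4, ovF_pos hb]
      rw [hnew]
      funext h
      by_cases hh : h ∈ C.live (t + 1)
      · rw [if_pos hh, if_pos hh]
        obtain ⟨h1, h2⟩ := (mem_live C _ _).1 hh
        refine C.ext_eq hσ' h ?_
        by_cases h6 : h.val = t
        · right; right
          refine ⟨h6, ?_⟩
          have : (⟨t, ht.1⟩ : Fin s) = h := Fin.ext h6.symm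
          rw [this]
        · by_cases h7 : h.val < C.last t
          · left
            rw [mem_live]
            refine ⟨h7, ?_⟩
            rcases h2 with ⟨g, hg, hg'⟩ | h2
            · exact Or.inl ⟨g, (C.last_le t).trans (by omega), hg'⟩
            · exact Or.inr h2
          · right; left
            omega
      · rw [if_neg hh, if_neg hh]
    · have hl : C.last (t + 1) = C.last t := by
        conv_lhs => unfold Circuit.last
        rw [if_neg ht]
      have e1 : (carryMach C b w x A).nx t σ (ans f ((carryMach C b w x A).q t σ)) = σ :=
        dif_neg ht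
      rw [e1, hl, ih]

theorem carryMach_out (C : Circuit n s Q) {b : ℕ} (hb : M * m ≤ 2 ^ b) (w : Fin q → Bool)
    (x : Fin n → Bool) (A : Oracle) (f : Pt M m → Lb m) :
    C.out.val x (C.ext A x (C.last s)
      ((carryMach C b w x A).run f 0 (fun _ => false) s) s false) =
      C.eval (ovF b w f A) x := by
  refine Wire.val_congr _ fun g hg => ?_
  have hσ' : ∀ h ∈ C.live (C.last s), (carryMach C b w x A).run f 0 (fun _ => false) s h =
      C.val (ovF b w f A) x h := by
    intro h hh
    rw [carryMach_run C hb]
    exact if_pos hh
  refine C.ext_eq hσ' g ?_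
  by_cases h7 : g.val < C.last s
  · left
    rw [mem_live]
    exact ⟨h7, Or.inr hg⟩
  · right; left
    exact ⟨by omega, g.2⟩

/-- A circuit which carries few bits over its oracle gates rarely knows the label of the final
vertex of a stack. -/
theorem carry_block (C : Circuit n s Q) {b : ℕ} (hb : M * m ≤ 2 ^ b) (w : Fin q → Bool)
    (x : Fin n → Bool) (A : Oracle) {ch : Fin M → Bool → Fin M} (d : Lb m)
    {N k Gp : ℕ} {root : ℕ → Fin N → Fin M} {z : Fin M} (hS : IsStack ch N k Gp root z)
    (hGp : 0 < Gp) {B : ℕ} (hBpos : 0 < B) (hB : (B + 1) * (2 * Gp) ≤ N) {W : ℕ}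
    (hW : C.CarryLE W) (hs : s ≤ B ^ k) (i₀ : Fin m) :
    ((Finset.univ.filter fun f : Pt M m → Lb m => C.eval (ovF b w f A) x = lab ch d f z i₀).card
      : ℝ) ≤ (1 / 2 + cnt B (2 ^ W) ((M * B ^ k / 2 ^ m) ^ Gp) k + M * B ^ k / 2 ^ m) *
        Fintype.card (Pt M m → Lb m) := by
  classical
  have h := mach_bound d (carryMach (M := M) (m := m) C b w x A) hS hGp hBpos hB
    (N' := 2 ^ W) (carryMach_card C b w x A hW) (fun _ => false) (by
      show (fun _ => false) ∈ Fintype.piFinset _
      rw [Fintype.mem_piFinset]
      intro h
      show false ∈ _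
      split_ifs <;> simp) s hs i₀ (fun σ => C.out.val x (C.ext A x (C.last s) σ s false))
  have e : (Finset.univ.filter fun f : Pt M m → Lb m => C.eval (ovF b w f A) x =
      lab ch d f z i₀) = Finset.univ.filter fun f : Pt M m → Lb m =>
      C.out.val x (C.ext A x (C.last s)
        ((carryMach C b w x A).run f 0 (fun _ => false) s) s false) = lab ch d f z i₀ := by
    refine Finset.filter_congr fun f _ => ?_
    rw [carryMach_out C hb]
  rw [e]
  push_cast at h
  exact h

end Pool.Agent.Q9h3.ROC
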