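import Pool.Agent.H628R3.RO.Defs

/-!
# Circuits with oracle gates

Circuits over `∼`, `∧`, `∨` and oracle gates; their values, size, depth and width.
-/

namespace Pool.Agent.Q9h3.ROC

open Pool.Agent.H628R3.RO (Oracle)

/-- A wire of a circuit with `n` inputs and `s` gates: a constant, an input, or (the value of) a
gate. -/
inductive Wire (n s : ℕ) : Type
  | const (b : Bool)
  | input (i : Fin n)
  | gate (g : Fin s)
  deriving DecidableEq

/-- A gate of a circuit with `n` inputs and `s` gates: negation, conjunction, disjunction, or an
oracle gate with `k ≤ q` arguments, which asks whether the string of the values of its arguments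
is in the oracle. -/
inductive Gate (n s q : ℕ) : Type
  | not (a : Wire n s)
  | and (a b : Wire n s)
  | or (a b : Wire n s)
  | query (k : Fin (q + 1)) (a : Fin k → Wire n s)

variable {n s q : ℕ}

/-- the arguments of a gate -/
def Gate.args : Gate n s q → List (Wire n s)
  | .not a => [a]
  | .and a b => [a, b]
  | .or a b => [a, b]
  | .query _ a => List.ofFn a

/-- the value of a wire, for the input `x` and the values `v` of the gates -/
def Wire.val (x : Fin n → Bool) (v : Fin s → Bool) : Wire n s → Bool
  | .const b => b
  | .input i => x i
  | .gate g => v g

/-- the value of a gate, for the oracle `A`, the input `x` and the values `v` of the gates -/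
def Gate.val (A : Oracle) (x : Fin n → Bool) (v : Fin s → Bool) : Gate n s q → Bool
  | .not a => !(a.val x v)
  | .and a b => a.val x v && b.val x v
  | .or a b => a.val x v || b.val x v
  | .query _ a => A (List.ofFn fun i => (a i).val x v)

/-- A circuit with `n` inputs, `s` gates and one output, where oracle gates have at most `q`
arguments. The gates are listed in such an order that every gate comes after its arguments. -/
structure Circuit (n s q : ℕ) : Type where
  /-- the gates -/
  gate : Fin s → Gate n s q
  /-- the output -/
  out : Wire n s
  /-- the arguments of a gate come before it -/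
  earlier : ∀ g h, Wire.gate h ∈ (gate g).args → h < g

/-- the value of the gate `g` for the oracle `A` and the input `x` -/
def Circuit.val (C : Circuit n s q) (A : Oracle) (x : Fin n → Bool) (g : Fin s) : Bool :=
  (C.gate g).val A x fun h => if _hh : h < g then C.val A x h else false
termination_by g.val
decreasing_by exact _hh

/-- the output of the circuit for the oracle `A` and the input `x` -/
def Circuit.eval (C : Circuit n s q) (A : Oracle) (x : Fin n → Bool) : Bool :=
  C.out.val x (C.val A x)

/-- The gates are given weights. All paths in the circuit have weight at most `d`: this is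
witnessed by levels `lev g` of the gates (at least the greatest weight of a path ending in `g`). -/
def Circuit.PathLE (C : Circuit n s q) (wt : Gate n s q → ℕ) (d : ℕ) : Prop :=
  ∃ lev : Fin s → ℕ, ∀ g, lev g ≤ d ∧ wt (C.gate g) ≤ lev g ∧
    ∀ h, Wire.gate h ∈ (C.gate g).args → lev h + wt (C.gate g) ≤ lev g

/-- The weight of gates for the depth: an oracle gate with `k` arguments has weight `k + 1`, all
other gates have weight `1`. -/
def Gate.weight : Gate n s q → ℕ
  | .not _ => 1
  | .and _ _ => 1
  | .or _ _ => 1
  | .query k _ => k + 1

/-- `1` for oracle gates and `0` for the others -/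
def Gate.oracleWeight : Gate n s q → ℕ
  | .not _ => 0
  | .and _ _ => 0
  | .or _ _ => 0
  | .query _ _ => 1

/-- The depth is at most `d`, where an oracle gate with `k` arguments counts `k + 1`. -/
def Circuit.DepthLE (C : Circuit n s q) (d : ℕ) : Prop := C.PathLE Gate.weight d

/-- There are at most `d` oracle gates on every path. -/
def Circuit.OracleDepthLE (C : Circuit n s q) (d : ℕ) : Prop := C.PathLE Gate.oracleWeight d

open Classical in
/-- The gates whose values must be stored when the gates number `0, …, t - 1` have been evaluated:
those which are arguments of later gates, and the output. -/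
noncomputable def Circuit.live (C : Circuit n s q) (t : ℕ) : Finset (Fin s) :=
  Finset.univ.filter fun h => h.val < t ∧
    ((∃ g : Fin s, t ≤ g.val ∧ Wire.gate h ∈ (C.gate g).args) ∨ C.out = Wire.gate h)

/-- The circuit has width at most `w`: when it is evaluated gate by gate, at most `w` values of
gates have to be stored at every moment. -/
def Circuit.WidthLE (C : Circuit n s q) (w : ℕ) : Prop := ∀ t, (C.live t).card ≤ w

/-- The gate is an oracle gate. -/
def Gate.IsOracle : Gate n s q → Prop
  | .not _ => False
  | .and _ _ => False
  | .or _ _ => False
  | .query _ _ => True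

/-- At most `w` bits are carried over every oracle gate: when an oracle gate has been evaluated, at
most `w` values of gates have to be stored. (Between two oracle gates any number of values may be
stored. So this holds if the circuit has width at most `w`.) -/
def Circuit.CarryLE (C : Circuit n s q) (w : ℕ) : Prop :=
  ∀ g : Fin s, (C.gate g).IsOracle → (C.live (g.val + 1)).card ≤ w

/-! ### basic facts -/

theorem Wire.val_congr {x : Fin n → Bool} {v v' : Fin s → Bool} (a : Wire n s)
    (h : ∀ g, a = Wire.gate g → v g = v' g) : a.val x v = a.val x v' := by
  cases a with
  | const b => rfl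
  | input i => rfl
  | gate g => exact h g rfl

theorem Gate.val_congr {A : Oracle} {x : Fin n → Bool} {v v' : Fin s → Bool} (a : Gate n s q)
    (h : ∀ g, Wire.gate g ∈ a.args → v g = v' g) : a.val A x v = a.val A x v' := by
  cases a with
  | not a =>
    show (!_) = (!_)
    rw [Wire.val_congr a fun g hg => h g (by simp [Gate.args, hg])]
  | and a b =>
    show (_ && _) = (_ && _)
    rw [Wire.val_congr a fun g hg => h g (by simp [Gate.args, hg]),
      Wire.val_congr b fun g hg => h g (by simp [Gate.args, hg])]
  | or a b =>
    show (_ || _) = (_ || _)
    rw [Wire.val_congr a fun g hg => h g (by simp [Gate.args, hg]),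
      Wire.val_congr b fun g hg => h g (by simp [Gate.args, hg])]
  | query k a =>
    show A _ = A _
    congr 1
    congr 1
    funext i
    refine Wire.val_congr (a i) fun g hg => h g ?_
    show _ ∈ List.ofFn a
    rw [List.mem_ofFn]
    exact ⟨i, hg⟩

theorem Circuit.val_eq (C : Circuit n s q) (A : Oracle) (x : Fin n → Bool) (g : Fin s) :
    C.val A x g = (C.gate g).val A x (C.val A x) := by
  conv_lhs => unfold Circuit.val
  refine Gate.val_congr _ fun h hh => ?_
  rw [dif_pos (C.earlier g h hh)]

/-- the string asked by a gate, if it is an oracle gate -/
def Gate.str (x : Fin n → Bool) (v : Fin s → Bool) : Gate n s q → Option (List Bool)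
  | .query _ a => some (List.ofFn fun i => (a i).val x v)
  | _ => none

theorem Gate.str_congr {x : Fin n → Bool} {v v' : Fin s → Bool} (a : Gate n s q)
    (h : ∀ g, Wire.gate g ∈ a.args → v g = v' g) : a.str x v = a.str x v' := by
  cases a with
  | not a => rfl
  | and a b => rfl
  | or a b => rfl
  | query k a =>
    show some _ = some _
    congr 2
    funext i
    refine Wire.val_congr (a i) fun g hg => h g ?_
    show _ ∈ List.ofFn a
    rw [List.mem_ofFn]
    exact ⟨i, hg⟩

/-- the value of a gate which is an oracle gate asking `z` -/
theorem Gate.val_of_str {A : Oracle} {x : Fin n → Bool} {v : Fin s → Bool} {a : Gate n s q}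
    {z : List Bool} (h : a.str x v = some z) : a.val A x v = A z := by
  cases a with
  | not a => exact absurd h (by simp [Gate.str])
  | and a b => exact absurd h (by simp [Gate.str])
  | or a b => exact absurd h (by simp [Gate.str])
  | query k a =>
    have := Option.some.inj h
    show A _ = A _
    rw [this]

/-- the value of a gate which is not an oracle gate -/
theorem Gate.val_of_str_none {A A' : Oracle} {x : Fin n → Bool} {v : Fin s → Bool}
    {a : Gate n s q} (h : a.str x v = none) : a.val A x v = a.val A' x v := by
  cases a with
  | not a => rfl
  | and a b => rfl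
  | or a b => rfl
  | query k a => exact absurd h (by simp [Gate.str])

/-- changing the oracle at strings which are not asked by gates of level less than `d` -/
theorem Circuit.val_congr_lev (C : Circuit n s q) {A A' : Oracle} {x : Fin n → Bool}
    (P : Fin s → Prop) (hP : ∀ g h, P g → Wire.gate h ∈ (C.gate g).args → P h)
    (hA : ∀ g z, P g → (C.gate g).str x (C.val A x) = some z → A' z = A z) :
    ∀ g, P g → C.val A' x g = C.val A x g := by
  intro g
  induction g using WellFoundedLT.induction with
  | ind g ih =>
    intro hg
    have h1 : ∀ h, Wire.gate h ∈ (C.gate g).args → C.val A' x h = C.val A x h := fun h hh =>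
      ih h (C.earlier g h hh) (hP g h hg hh)
    rw [C.val_eq, C.val_eq A, Gate.val_congr _ h1]
    cases hs : (C.gate g).str x (C.val A x) with
    | none => exact Gate.val_of_str_none hs
    | some z =>
      rw [Gate.val_of_str hs, Gate.val_of_str hs]
      exact hA g z hg hs

theorem Circuit.val_congr (C : Circuit n s q) {A A' : Oracle} {x : Fin n → Bool}
    (hA : ∀ g z, (C.gate g).str x (C.val A x) = some z → A' z = A z) :
    C.val A' x = C.val A x :=
  funext fun g => C.val_congr_lev (fun _ => True) (fun _ _ _ _ => trivial)
    (fun g z _ h => hA g z h) g trivial

end Pool.Agent.Q9h3.ROC
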