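import Pool.Agent.Q9h3.RO.Stack

/-!
# A stack of binary trees

Layer `j` has `n = 2 ^ r` roots; every root of layer `j + 1` is the root of a complete binary tree
whose leaves are all the roots of layer `j`. The vertex `a` (`1 ≤ a < n`, in heap order) of the
tree number `i` of layer `j` has the number `(j n + i) n + (n - 1 - a)`.
-/

namespace Pool.Agent.Q9h3.ROC

/-- The children of the vertices of the stack of binary trees; `v` itself stands for a missing
child. -/
def chN (r v : ℕ) (c : Bool) : ℕ :=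
  if v / (2 ^ r * 2 ^ r) = 0 ∨ 2 ^ r - 1 - v % 2 ^ r = 0 then v
  else if 2 * (2 ^ r - 1 - v % 2 ^ r) + c.toNat < 2 ^ r then
    v / 2 ^ r * 2 ^ r + (2 ^ r - 1 - (2 * (2 ^ r - 1 - v % 2 ^ r) + c.toNat))
  else ((v / (2 ^ r * 2 ^ r) - 1) * 2 ^ r + (2 * (2 ^ r - 1 - v % 2 ^ r) + c.toNat - 2 ^ r)) *
    2 ^ r + (2 ^ r - 2)

theorem num_div {n a b : ℕ} (hb : b < n) : (a * n + b) / n = a := by
  rw [Nat.div_eq_of_lt_le]
  · omega
  · calc _ < a * n + n := by omega
      _ = _ := by ring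

theorem num_mod {n a b : ℕ} (hb : b < n) : (a * n + b) % n = b := by
  rw [Nat.add_comm, Nat.add_mul_mod_self_right, Nat.mod_eq_of_lt hb]

theorem num_lay {n j i b : ℕ} (hi : i < n) (hb : b < n) :
    ((j * n + i) * n + b) / (n * n) = j := by
  rw [← Nat.div_div_eq_div_mul, num_div hb, num_div hi]

theorem toNat_le_one (c : Bool) : c.toNat ≤ 1 := by cases c <;> simp

theorem chN_spec (r v : ℕ) (c : Bool) : chN r v c = v ∨
    (chN r v c < v ∧ chN r v c / 2 ^ r = v / 2 ^ r) ∨
    (chN r v c < v ∧ chN r v c / (2 ^ r * 2 ^ r) < v / (2 ^ r * 2 ^ r)) := by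
  have hn : 0 < 2 ^ r := by positivity
  generalize hN : 2 ^ r = n at hn
  unfold chN
  rw [hN]
  split_ifs with h1 h2
  · exact Or.inl rfl
  · right; left
    push Not at h1
    have hm : v % n < n := Nat.mod_lt _ hn
    have hd := Nat.div_add_mod' v n
    have hc := toNat_le_one c
    have h3 : n - 1 - (2 * (n - 1 - v % n) + c.toNat) < v % n := by omega
    exact ⟨by omega, num_div (by omega)⟩
  · right; right
    push Not at h1 h2
    obtain ⟨j, hj⟩ : ∃ j, v / (n * n) = j + 1 := Nat.exists_eq_succ_of_ne_zero h1.1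
    rw [hj]
    have hc := toNat_le_one c
    have hm : v % n < n := Nat.mod_lt _ hn
    have hnn : 0 < n * n := by positivity
    set e := 2 * (n - 1 - v % n) + c.toNat - n with he
    have he' : e + 1 ≤ n := by omega
    have h3 : ((j + 1 - 1) * n + e) * n + (n - 2) < (j + 1) * (n * n) := by
      have : ((j + 1 - 1) * n + e) * n + n ≤ (j + 1) * (n * n) := by
        simp only [Nat.add_sub_cancel]
        nlinarith
      omega
    have h4 : (j + 1) * (n * n) ≤ v := by
      rw [← hj]; exact Nat.div_mul_le_self _ _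
    exact ⟨by omega, (Nat.div_lt_iff_lt_mul hnn).2 h3⟩

theorem chN_le (r v : ℕ) (c : Bool) : chN r v c ≤ v := by
  rcases chN_spec r v c with h | h | h
  · exact h.le
  · exact h.1.le
  · exact h.1.le

/-- the number of vertices -/
def vert (r k : ℕ) : ℕ := (k + 2) * (2 ^ r * 2 ^ r)

/-- the children, as vertices -/
def ch (r k : ℕ) (v : Fin (vert r k)) (c : Bool) : Fin (vert r k) :=
  ⟨chN r v c, (chN_le r v c).trans_lt v.2⟩

theorem reach_blk {r k : ℕ} {v u : Fin (vert r k)} (h : Reach (ch r k) v u) :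
    (u : ℕ) / 2 ^ r = v / 2 ^ r ∨ (u : ℕ) / (2 ^ r * 2 ^ r) < v / (2 ^ r * 2 ^ r) := by
  induction h with
  | refl v => exact Or.inl rfl
  | step v c u hlt _ ih =>
    have hlt' : chN r v c < v := hlt
    have hval : ((ch r k v c : Fin (vert r k)) : ℕ) = chN r v c := rfl
    rw [hval] at ih
    rcases chN_spec r v c with h | h | h
    · omega
    · have h2 : chN r v c / (2 ^ r * 2 ^ r) = v / (2 ^ r * 2 ^ r) := by
        rw [← Nat.div_div_eq_div_mul, ← Nat.div_div_eq_div_mul, h.2]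
      rw [h.2, h2] at ih
      exact ih
    · right
      rcases ih with ih | ih
      · have h2 : (u : ℕ) / (2 ^ r * 2 ^ r) = chN r v c / (2 ^ r * 2 ^ r) := by
          rw [← Nat.div_div_eq_div_mul, ← Nat.div_div_eq_div_mul, ih]
        rw [h2]
        exact h.2
      · exact ih.trans h.2

/-- the vertices on the way from the root `i` of layer `j + 1` (for `h = r`) to the root `l` of
layer `j` (for `h = 0`) -/
def nodeN (r j i l h : ℕ) : ℕ :=
  if h = 0 then (j * 2 ^ r + l) * 2 ^ r + (2 ^ r - 2)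
  else ((j + 1) * 2 ^ r + i) * 2 ^ r + (2 ^ r - 1 - (2 ^ r + l) / 2 ^ h)

theorem nodeN_zero (r j i l : ℕ) :
    nodeN r j i l 0 = (j * 2 ^ r + l) * 2 ^ r + (2 ^ r - 2) := rfl

theorem nodeN_top (r j i l : ℕ) (hr : 0 < r) (hl : l < 2 ^ r) :
    nodeN r j i l r = ((j + 1) * 2 ^ r + i) * 2 ^ r + (2 ^ r - 2) := by
  unfold nodeN
  rw [if_neg (by omega)]
  have : (2 ^ r + l) / 2 ^ r = 1 := by
    rw [Nat.div_eq_of_lt_le]
    · omega
    · omega
  rw [this]
  rfl

theorem half_lt {r l h : ℕ} (hl : l < 2 ^ r) (hh : 0 < h) : (2 ^ r + l) / 2 ^ h < 2 ^ r := by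
  obtain ⟨h', rfl⟩ : ∃ h', h = h' + 1 := ⟨h - 1, by omega⟩
  rw [pow_succ', ← Nat.div_div_eq_div_mul]
  have h1 : (2 ^ r + l) / 2 < 2 ^ r := by omega
  exact (Nat.div_le_self _ _).trans_lt h1

theorem half_pos {r l h : ℕ} (hh : h ≤ r) : 0 < (2 ^ r + l) / 2 ^ h := by
  refine Nat.div_pos ?_ (by positivity)
  have : 2 ^ h ≤ 2 ^ r := Nat.pow_le_pow_right (by norm_num) hh
  omega

theorem chN_nodeN (r j i l h : ℕ) (hi : i < 2 ^ r) (hl : l < 2 ^ r) (hh : h < r) :
    ∃ c, chN r (nodeN r j i l (h + 1)) c = nodeN r j i l h := by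
  have hA := half_lt (h := h + 1) hl (by omega)
  have hA0 := half_pos (r := r) (l := l) (h := h + 1) (by omega)
  have hAA : (2 ^ r + l) / 2 ^ (h + 1) = (2 ^ r + l) / 2 ^ h / 2 := by
    rw [pow_succ, Nat.div_div_eq_div_mul]
  have hlow : h = 0 ∨ (2 ^ r + l) / 2 ^ h < 2 ^ r := by
    rcases Nat.eq_zero_or_pos h with h0 | h0
    · exact Or.inl h0
    · exact Or.inr (half_lt hl h0)
  have hz : h = 0 → (2 ^ r + l) / 2 ^ h = 2 ^ r + l := by
    rintro rfl; simp
  refine ⟨decide ((2 ^ r + l) / 2 ^ h % 2 = 1), ?_⟩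
  have hc : (decide ((2 ^ r + l) / 2 ^ h % 2 = 1)).toNat = (2 ^ r + l) / 2 ^ h % 2 := by
    rcases Nat.mod_two_eq_zero_or_one ((2 ^ r + l) / 2 ^ h) with h1 | h1 <;> simp [h1]
  unfold chN
  rw [hc]
  unfold nodeN
  have hh1 : ¬ (h + 1 = 0) := by omega
  simp only [if_neg hh1]
  rw [hAA] at hA hA0 ⊢
  generalize (2 ^ r + l) / 2 ^ h = a' at *
  generalize 2 ^ r = n at *
  have hb : n - 1 - a' / 2 < n := by omega
  rw [num_lay hi hb, num_mod hb, num_div hb]
  have e1 : 2 * (n - 1 - (n - 1 - a' / 2)) + a' % 2 = a' := by omega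
  rw [if_neg (by omega), e1]
  rcases hlow with h0 | h0
  · have hz' := hz h0
    rw [if_pos h0, if_neg (by omega)]
    have : a' - n = l := by omega
    rw [this, Nat.add_sub_cancel]
  · by_cases h1 : h = 0
    · exfalso
      have := hz h1
      omega
    · rw [if_neg h1, if_pos h0]

theorem nodeN_lt {r j i l h k : ℕ} (hi : i < 2 ^ r) (hl : l < 2 ^ r) (hj : j ≤ k) :
    nodeN r j i l h < vert r k := by
  unfold nodeN vert
  have hn : 0 < 2 ^ r := by positivity
  generalize 2 ^ r = n at *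
  split_ifs
  · have h1 : (j * n + l + 1) * n ≤ (k + 2) * n * n := Nat.mul_le_mul_right _ (by nlinarith)
    have : (j * n + l) * n + n ≤ (k + 2) * (n * n) := by nlinarith
    omega
  · have h1 : ((j + 1) * n + i + 1) * n ≤ (k + 2) * n * n := Nat.mul_le_mul_right _ (by nlinarith)
    have : ((j + 1) * n + i) * n + n ≤ (k + 2) * (n * n) := by nlinarith
    generalize (n + l) / 2 ^ h = x
    omega

theorem root_lt {r j i k : ℕ} (hi : i < 2 ^ r) (hj : j ≤ k + 1) :
    (j * 2 ^ r + i) * 2 ^ r + (2 ^ r - 2) < vert r k := by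
  unfold vert
  have hn : 0 < 2 ^ r := by positivity
  generalize 2 ^ r = n at *
  have h1 : (j * n + i + 1) * n ≤ (k + 2) * n * n := Nat.mul_le_mul_right _ (by nlinarith)
  have : (j * n + i) * n + n ≤ (k + 2) * (n * n) := by nlinarith
  omega

/-- the roots of the layers (for `j ≤ k + 1`) -/
def root (r k j : ℕ) (i : Fin (2 ^ r)) : Fin (vert r k) :=
  ⟨(min j (k + 1) * 2 ^ r + i) * 2 ^ r + (2 ^ r - 2), root_lt i.2 (min_le_right _ _)⟩

theorem root_val {r k j : ℕ} (hj : j ≤ k + 1) (i : Fin (2 ^ r)) :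
    (root r k j i : ℕ) = (j * 2 ^ r + i) * 2 ^ r + (2 ^ r - 2) := by
  show (min j (k + 1) * 2 ^ r + i) * 2 ^ r + (2 ^ r - 2) = _
  rw [min_eq_left hj]

/-- on the way from a root in `H` to a root of the preceding layer outside of `H`, there is a
vertex outside `H` with a parent in `H` -/
theorem exists_edge {r k : ℕ} (hr : 0 < r) {j : ℕ} (hj : j ≤ k) (i l : Fin (2 ^ r))
    (H : Finset (Fin (vert r k))) (h1 : root r k (j + 1) i ∈ H) (h0 : root r k j l ∉ H) :
    ∃ h < r, ∃ z : Fin (vert r k), (z : ℕ) = nodeN r j i l h ∧ z ∉ H ∧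
      ∃ v ∈ H, ∃ c, ch r k v c = z ∧ z < v := by
  classical
  let nd : ℕ → Fin (vert r k) := fun h => ⟨nodeN r j i l h, nodeN_lt i.2 l.2 hj⟩
  have e1 : nd r = root r k (j + 1) i := by
    apply Fin.ext
    rw [root_val (by omega)]
    exact nodeN_top r j i l hr l.2
  have e0 : nd 0 = root r k j l := by
    apply Fin.ext
    rw [root_val (by omega)]
    rfl
  have hex : ∃ h, nd h ∈ H := ⟨r, by rw [e1]; exact h1⟩
  have hle : Nat.find hex ≤ r := Nat.find_min' hex (by rw [e1]; exact h1)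
  have hne : Nat.find hex ≠ 0 := by
    intro h
    have := Nat.find_spec hex
    rw [h, e0] at this
    exact h0 this
  obtain ⟨h, hh⟩ : ∃ h, Nat.find hex = h + 1 := ⟨Nat.find hex - 1, by omega⟩
  have hz : nd h ∉ H := Nat.find_min hex (by omega)
  have hv : nd (h + 1) ∈ H := by rw [← hh]; exact Nat.find_spec hex
  obtain ⟨c, hc⟩ := chN_nodeN r j i l h i.2 l.2 (by omega)
  have hch : ch r k (nd (h + 1)) c = nd h := Fin.ext hc
  refine ⟨h, by omega, nd h, rfl, hz, nd (h + 1), hv, c, hch, ?_⟩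
  refine lt_of_le_of_ne ?_ fun he => hz (he ▸ hv)
  rw [← hch]
  exact chN_le _ _ _

theorem isStack {r k Gp : ℕ} (hr : 0 < r) :
    IsStack (ch r k) (2 ^ r) k Gp (root r k) (root r k (k + 1) ⟨0, by positivity⟩) := by
  classical
  have hn : 0 < 2 ^ r := by positivity
  have hn2 : 2 ^ r - 2 < 2 ^ r := by
    have : 2 ≤ 2 ^ r := by
      calc 2 = 2 ^ 1 := rfl
        _ ≤ 2 ^ r := Nat.pow_le_pow_right (by norm_num) hr
    omega
  refine ⟨?_, ?_, ?_⟩
  · intro i i' h
    have h1 := congrArg Fin.val h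
    rw [root_val (by omega), root_val (by omega)] at h1
    have h2 : (0 * 2 ^ r + (i : ℕ)) = 0 * 2 ^ r + (i' : ℕ) := by
      rw [← num_div (a := 0 * 2 ^ r + (i : ℕ)) hn2, h1, num_div hn2]
    exact Fin.ext (by omega)
  · intro j hj H hI hL
    set I := Finset.univ.filter fun i : Fin (2 ^ r) => root r k (j + 1) i ∈ H with hIdef
    set L := Finset.univ.filter fun i : Fin (2 ^ r) => root r k j i ∉ H with hLdef
    obtain ⟨I', hI', hI'c⟩ := Finset.exists_subset_card_eq hI
    obtain ⟨L', hL', hL'c⟩ := Finset.exists_subset_card_eq hL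
    let eI := I'.equivFinOfCardEq hI'c
    let eL := L'.equivFinOfCardEq hL'c
    have hex : ∀ q : Fin (2 * Gp), ∃ h < r, ∃ z : Fin (vert r k),
        (z : ℕ) = nodeN r j (eI.symm q : Fin (2 ^ r)) (eL.symm q : Fin (2 ^ r)) h ∧ z ∉ H ∧
          ∃ v ∈ H, ∃ c, ch r k v c = z ∧ z < v := fun q =>
      exists_edge hr hj.le _ _ H (Finset.mem_filter.1 (hI' (eI.symm q).2)).2
        (Finset.mem_filter.1 (hL' (eL.symm q).2)).2
    choose h hh z hz hzH hzp using hex
    -- either many `h q` are `0` or many are positive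
    have hcard := Finset.card_filter_add_card_filter_not
      (s := (Finset.univ : Finset (Fin (2 * Gp)))) (fun q => h q = 0)
    rw [Finset.card_univ, Fintype.card_fin] at hcard
    have key : ∀ S : Finset (Fin (2 * Gp)), Gp ≤ S.card →
        (∀ q ∈ S, ∀ q' ∈ S, Reach (ch r k) (z q) (z q') → q = q') → Front (ch r k) H Gp := by
      intro S hS hanti
      obtain ⟨S', hS', hS'c⟩ := Finset.exists_subset_card_eq hS
      let e := S'.equivFinOfCardEq hS'c
      refine ⟨fun q => z (e.symm q), fun q q' hq => ?_, fun q => ⟨hzH _, hzp _⟩⟩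
      have := hanti _ (hS' (e.symm q).2) _ (hS' (e.symm q').2) hq
      exact e.symm.injective (Subtype.ext this)
    by_cases hc : Gp ≤ (Finset.univ.filter fun q => h q = 0).card
    · refine key _ hc fun q hq q' hq' hR => ?_
      have hq := (Finset.mem_filter.1 hq).2
      have hq' := (Finset.mem_filter.1 hq').2
      have hb := reach_blk hR
      rw [hz, hz, hq, hq', nodeN_zero, nodeN_zero, num_div hn2, num_div hn2,
        num_lay (Fin.is_lt _) hn2, num_lay (Fin.is_lt _) hn2] at hb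
      have : (eL.symm q' : Fin (2 ^ r)) = (eL.symm q : Fin (2 ^ r)) := Fin.ext (by omega)
      exact (eL.symm.injective (Subtype.ext this)).symm
    · have hc' : Gp ≤ (Finset.univ.filter fun q => ¬ h q = 0).card := by omega
      refine key _ hc' fun q hq q' hq' hR => ?_
      have hq := (Finset.mem_filter.1 hq).2
      have hq' := (Finset.mem_filter.1 hq').2
      have hb := reach_blk hR
      have hlt : ∀ x, 2 ^ r - 1 - x < 2 ^ r := fun x => by omega
      rw [hz, hz] at hb
      unfold nodeN at hb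
      rw [if_neg hq, if_neg hq', num_div (hlt _), num_div (hlt _),
        num_lay (Fin.is_lt _) (hlt _), num_lay (Fin.is_lt _) (hlt _)] at hb
      have : (eI.symm q' : Fin (2 ^ r)) = (eI.symm q : Fin (2 ^ r)) := Fin.ext (by omega)
      exact (eI.symm.injective (Subtype.ext this)).symm
  · rintro H hz ⟨i, hi⟩
    obtain ⟨h, -, z, -, h1, h2⟩ := exists_edge hr le_rfl ⟨0, hn⟩ i H hz hi
    exact ⟨fun _ => z, fun a b _ => Subsingleton.elim a b, fun _ => ⟨h1, h2⟩⟩

end Pool.Agent.Q9h3.ROC
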