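import Pool.Agent.Q9h3.RO.LabCirc
import Pool.Agent.Q9h3.RO.Graph

/-!
# The circuits for the stacks of binary trees
-/

namespace Pool.Agent.Q9h3.ROC

/-- The circuit for the stack of `r` layers of binary trees, where `2 ^ r ≤ n < 2 ^ (r + 1)`. Its
labels have `(r + 1) ^ 2` bits; the questions contain the first `5 r ^ 2` bits of the input. -/
def treeCircuit (n : ℕ) : Circuit n (vert (Nat.log 2 n) (Nat.log 2 n) * (Nat.log 2 n + 1) ^ 2)
    (5 * Nat.log 2 n ^ 2 + (5 * Nat.log 2 n + 1) + 2 * (Nat.log 2 n + 1) ^ 2) :=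
  labCircuit n (5 * Nat.log 2 n ^ 2) (5 * Nat.log 2 n + 1) (ch (Nat.log 2 n) (Nat.log 2 n))
    (root (Nat.log 2 n) (Nat.log 2 n) (Nat.log 2 n + 1) ⟨0, by positivity⟩) ⟨0, by positivity⟩

theorem vert_le {n : ℕ} (hn : 1 ≤ n) :
    vert (Nat.log 2 n) (Nat.log 2 n) * (Nat.log 2 n + 1) ^ 2 ≤ n ^ 2 * (Nat.log 2 n + 2) ^ 3 := by
  have h1 : 2 ^ Nat.log 2 n ≤ n := Nat.pow_log_le_self 2 (by omega)
  unfold vert
  generalize Nat.log 2 n = r at *
  calc (r + 2) * (2 ^ r * 2 ^ r) * (r + 1) ^ 2 ≤ (r + 2) * (n * n) * (r + 2) ^ 2 :=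
        Nat.mul_le_mul (Nat.mul_le_mul_left _ (Nat.mul_le_mul h1 h1))
          (Nat.pow_le_pow_left (by omega) 2)
    _ = n ^ 2 * (r + 2) ^ 3 := by ring

theorem fan_le (r : ℕ) : 5 * r ^ 2 + (5 * r + 1) + 2 * (r + 1) ^ 2 ≤ 7 * (r + 1) ^ 2 := by
  nlinarith

/-- the level of a vertex -/
def lv (r v : ℕ) : ℕ := v / (2 ^ r * 2 ^ r) * r + (r - Nat.log 2 (2 ^ r - 1 - v % 2 ^ r))

theorem lv_chN (r v : ℕ) (c : Bool) (h : chN r v c < v) : lv r (chN r v c) + 1 ≤ lv r v := by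
  have hn : 0 < 2 ^ r := by positivity
  unfold chN at h ⊢
  unfold lv
  have hm : v % 2 ^ r < 2 ^ r := Nat.mod_lt _ hn
  have hc := toNat_le_one c
  split_ifs at h ⊢ with h1 h2
  · omega
  · push Not at h1
    set a := 2 ^ r - 1 - v % 2 ^ r with ha
    set a' := 2 * a + c.toNat with ha'
    have hb : 2 ^ r - 1 - a' < 2 ^ r := by omega
    have e1 : (v / 2 ^ r * 2 ^ r + (2 ^ r - 1 - a')) / (2 ^ r * 2 ^ r) = v / (2 ^ r * 2 ^ r) := by
      rw [← Nat.div_div_eq_div_mul, num_div hb, Nat.div_div_eq_div_mul]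
    have e2 : (v / 2 ^ r * 2 ^ r + (2 ^ r - 1 - a')) % 2 ^ r = 2 ^ r - 1 - a' := num_mod hb
    rw [e1, e2]
    have e3 : 2 ^ r - 1 - (2 ^ r - 1 - a') = a' := by omega
    rw [e3]
    have hlog : Nat.log 2 a' = Nat.log 2 a + 1 := by
      have h3 : a' / 2 = a := by omega
      rw [← h3, Nat.log_div_base]
      have : 1 ≤ Nat.log 2 a' := Nat.log_pos (by norm_num) (by omega)
      omega
    have hlt : Nat.log 2 a' < r := Nat.log_lt_of_lt_pow (by omega) h2
    rw [hlog] at hlt ⊢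
    generalize v / (2 ^ r * 2 ^ r) * r = y
    omega
  · push Not at h1 h2
    set a := 2 ^ r - 1 - v % 2 ^ r with ha
    obtain ⟨j, hj⟩ : ∃ j, v / (2 ^ r * 2 ^ r) = j + 1 := Nat.exists_eq_succ_of_ne_zero h1.1
    rw [hj, Nat.add_sub_cancel]
    have hb : 2 ^ r - 2 < 2 ^ r := by omega
    have ha2 : 2 * a + c.toNat - 2 ^ r < 2 ^ r := by omega
    have hlt : Nat.log 2 a < r := Nat.log_lt_of_lt_pow (by omega) (by omega)
    have e1 : ((j * 2 ^ r + (2 * a + c.toNat - 2 ^ r)) * 2 ^ r + (2 ^ r - 2)) / (2 ^ r * 2 ^ r) =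
        j := num_lay ha2 hb
    rw [e1]
    have : (j + 1) * r = j * r + r := by ring
    omega

theorem lv_le {r k v : ℕ} (hv : v < vert r k) : lv r v ≤ (k + 2) * r := by
  unfold lv
  have h1 : v / (2 ^ r * 2 ^ r) ≤ k + 1 := by
    have : v / (2 ^ r * 2 ^ r) < k + 2 := (Nat.div_lt_iff_lt_mul (by positivity)).2 hv
    omega
  have h2 := Nat.mul_le_mul_right r h1
  have h3 : (k + 2) * r = (k + 1) * r + r := by ring
  omega

/-- the depth of a circuit for labels -/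
theorem depth_labCircuit {n q b M m : ℕ} (ch : Fin M → Bool → Fin M) (z : Fin M) (y : Fin m)
    (l : Fin M → ℕ) (hl : ∀ v c, ch v c < v → l (ch v c) + 1 ≤ l v) {D : ℕ} (hD : ∀ v, l v ≤ D) :
    (labCircuit n q b ch z y).DepthLE ((D + 1) * (q + b + 2 * m + 1)) := by
  refine ⟨fun g => (l g.divNat + 1) * (q + b + 2 * m + 1), fun g => ⟨?_, ?_, ?_⟩⟩
  · exact Nat.mul_le_mul_right _ (Nat.succ_le_succ (hD _))
  · have h1 : ((labCircuit n q b ch z y).gate g).weight = q + b + 2 * m + 1 := by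
      show (labWires n q b ch g).length + 1 = _
      rw [length_labWires]
    rw [h1]
    exact Nat.le_mul_of_pos_left _ (Nat.succ_pos _)
  · intro h hh
    have h1 : ((labCircuit n q b ch z y).gate g).weight = q + b + 2 * m + 1 := by
      show (labWires n q b ch g).length + 1 = _
      rw [length_labWires]
    rw [h1]
    rw [args_labCircuit] at hh
    obtain ⟨c, h2, h3⟩ := mem_labWires hh
    have h4 := hl g.divNat c h2
    rw [← h3] at h4
    calc (l h.divNat + 1) * (q + b + 2 * m + 1) + (q + b + 2 * m + 1) =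
        (l h.divNat + 1 + 1) * (q + b + 2 * m + 1) := by ring
      _ ≤ _ := Nat.mul_le_mul_right _ (by omega)

theorem depth_treeCircuit (n : ℕ) : (treeCircuit n).DepthLE (7 * (Nat.log 2 n + 1) ^ 4) := by
  set r := Nat.log 2 n with hr
  have h := depth_labCircuit (n := n) (q := 5 * r ^ 2) (b := 5 * r + 1) (m := (r + 1) ^ 2)
    (ch r r) (root r r (r + 1) ⟨0, by positivity⟩) ⟨0, by positivity⟩ (fun v => lv r v)
    (fun v c hlt => lv_chN r v c hlt) (D := (r + 2) * r) (fun v => lv_le v.2)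
  obtain ⟨lev, hlev⟩ := h
  refine ⟨lev, fun g => ⟨(hlev g).1.trans ?_, (hlev g).2⟩⟩
  calc ((r + 2) * r + 1) * (5 * r ^ 2 + (5 * r + 1) + 2 * (r + 1) ^ 2 + 1) ≤
      (r + 1) ^ 2 * (7 * (r + 1) ^ 2) := Nat.mul_le_mul (by nlinarith) (by nlinarith)
    _ = 7 * (r + 1) ^ 4 := by ring

end Pool.Agent.Q9h3.ROC
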