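import Pool.Agent.Q9h3.RO.Union
import Pool.Agent.Q9h3.RO.Carry
import Pool.Agent.Q9h3.RO.Tree

/-!
# The lower bound for almost every oracle
-/

namespace Pool.Agent.Q9h3.ROC

open MeasureTheory
open Pool.Agent.H628R3.RO (Oracle randomOracle prob)

theorem succ_le_two_pow (r : ℕ) : r + 1 ≤ 2 ^ r := Nat.lt_two_pow_self

theorem tree_bits (r : ℕ) : vert r r * (r + 1) ^ 2 ≤ 2 ^ (5 * r + 1) := by
  unfold vert
  have h1 : r + 2 ≤ 2 ^ (r + 1) := succ_le_two_pow (r + 1)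
  have h2 : (r + 1) ^ 2 ≤ (2 ^ r) ^ 2 := Nat.pow_le_pow_left (succ_le_two_pow r) 2
  calc (r + 2) * (2 ^ r * 2 ^ r) * (r + 1) ^ 2 ≤ 2 ^ (r + 1) * (2 ^ r * 2 ^ r) * (2 ^ r) ^ 2 :=
        Nat.mul_le_mul (Nat.mul_le_mul_right _ h1) h2
    _ = 2 ^ (5 * r + 1) := by
        rw [← pow_add, ← pow_mul, ← pow_add, ← pow_add]
        congr 1
        ring

theorem five_sq_le {r : ℕ} (hr : 9 ≤ r) : 5 * r ^ 2 ≤ 2 ^ r := by
  induction r, hr using Nat.le_induction with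
  | base => norm_num
  | succ r hr ih =>
    rw [pow_succ 2 r]
    nlinarith

/-- the bound for the number of states works -/
theorem carry_params {r e : ℕ} (hr : 9 ≤ r) (her : e + 3 ≤ r) (W : ℕ) :
    (1 / 2 + cnt ((2 ^ e : ℕ) : ℝ) (2 ^ W)
      (((vert r r : ℕ) * ((2 ^ e : ℕ) : ℝ) ^ r / 2 ^ ((r + 1) ^ 2)) ^ (W + r)) r +
      (vert r r : ℕ) * ((2 ^ e : ℕ) : ℝ) ^ r / 2 ^ ((r + 1) ^ 2)) ≤ 3 / 4 := by
  set κ : ℝ := ((vert r r : ℕ) : ℝ) * ((2 ^ e : ℕ) : ℝ) ^ r / 2 ^ ((r + 1) ^ 2) with hκ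
  have hκ0 : 0 ≤ κ := by positivity
  have hκ1 : κ ≤ (1 / 2) ^ (2 * r) := by
    rw [hκ, div_le_iff₀ (by positivity)]
    have h1 : vert r r * (2 ^ e) ^ r * 2 ^ (2 * r) ≤ 2 ^ ((r + 1) ^ 2) := by
      unfold vert
      calc (r + 2) * (2 ^ r * 2 ^ r) * (2 ^ e) ^ r * 2 ^ (2 * r) ≤
          2 ^ (r + 1) * (2 ^ r * 2 ^ r) * (2 ^ e) ^ r * 2 ^ (2 * r) :=
            Nat.mul_le_mul_right _ (Nat.mul_le_mul_right _ (Nat.mul_le_mul_right _
              (succ_le_two_pow (r + 1))))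
        _ = 2 ^ (r + 1 + (r + r) + e * r + 2 * r) := by
            rw [← pow_mul, ← pow_add, ← pow_add, ← pow_add, ← pow_add]
        _ ≤ 2 ^ ((r + 1) ^ 2) := by
            refine Nat.pow_le_pow_right (by norm_num) ?_
            have : (e + 3) * r ≤ r * r := Nat.mul_le_mul_right _ (by omega)
            nlinarith
    have h2 : ((vert r r : ℕ) : ℝ) * ((2 ^ e : ℕ) : ℝ) ^ r * 2 ^ (2 * r) ≤
        2 ^ ((r + 1) ^ 2) := by exact_mod_cast h1
    have h3 : (0 : ℝ) < 2 ^ (2 * r) := by positivity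
    rw [one_div, inv_pow]
    rw [inv_mul_eq_div, le_div_iff₀ h3]
    exact h2
  have hκ2 : κ ≤ 1 / 8 := by
    refine hκ1.trans ?_
    calc ((1 : ℝ) / 2) ^ (2 * r) ≤ (1 / 2) ^ 3 :=
          pow_le_pow_of_le_one (by norm_num) (by norm_num) (by omega)
      _ = 1 / 8 := by norm_num
  have hcnt : cnt ((2 ^ e : ℕ) : ℝ) (2 ^ W) (κ ^ (W + r)) r ≤ 1 / 8 := by
    have h1 := cnt_le (B := ((2 ^ e : ℕ) : ℝ)) (N' := 2 ^ W) (lam := κ ^ (W + r))
      (by exact_mod_cast Nat.one_le_two_pow) (one_le_pow₀ (by norm_num)) (by positivity) r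
    refine h1.trans ?_
    have h2 : κ ^ (W + r) ≤ (1 / 2) ^ (2 * r * (W + r)) := by
      rw [pow_mul]
      exact pow_le_pow_left₀ hκ0 hκ1 _
    have h3 : (r : ℝ) ≤ 2 ^ r := by
      exact_mod_cast (Nat.lt_two_pow_self (n := r)).le
    have h4 : (((2 ^ e : ℕ) : ℝ) * 2 ^ W) ^ r = 2 ^ ((e + W) * r) := by
      push_cast
      rw [← pow_add, ← pow_mul]
    rw [h4]
    have h5 : (r : ℝ) * 2 ^ ((e + W) * r) * κ ^ (W + r) ≤
        2 ^ r * 2 ^ ((e + W) * r) * (1 / 2) ^ (2 * r * (W + r)) :=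
      mul_le_mul (mul_le_mul_of_nonneg_right h3 (by positivity)) h2 (by positivity)
        (by positivity)
    refine h5.trans ?_
    rw [← pow_add]
    have h6 : r + (e + W) * r + 3 ≤ 2 * r * (W + r) := by
      have h7 : e * r ≤ r * r := Nat.mul_le_mul_right _ (by omega)
      have h8 : 9 * r ≤ r * r := Nat.mul_le_mul_right _ hr
      nlinarith [Nat.zero_le (r * W)]
    obtain ⟨t, ht⟩ := Nat.exists_eq_add_of_le h6
    rw [ht]
    rw [show ((1 : ℝ) / 2) = 2⁻¹ by norm_num, pow_add (2⁻¹ : ℝ) (r + (e + W) * r + 3) t,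
      pow_add (2⁻¹ : ℝ) (r + (e + W) * r) 3]
    have h9 : ((2 : ℝ)⁻¹) ^ t ≤ 1 := pow_le_one₀ (by norm_num) (by norm_num)
    have h10 : (2 : ℝ) ^ (r + (e + W) * r) * (2⁻¹) ^ (r + (e + W) * r) = 1 := by
      rw [← mul_pow]
      norm_num
    calc (2 : ℝ) ^ (r + (e + W) * r) *
          ((2⁻¹) ^ (r + (e + W) * r) * (2⁻¹) ^ 3 * (2⁻¹) ^ t) =
          ((2 : ℝ) ^ (r + (e + W) * r) * (2⁻¹) ^ (r + (e + W) * r)) *
            ((2⁻¹) ^ 3 * (2⁻¹) ^ t) := by ring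
      _ = (2⁻¹) ^ 3 * (2⁻¹) ^ t := by rw [h10, one_mul]
      _ ≤ (2⁻¹) ^ 3 * 1 := mul_le_mul_of_nonneg_left h9 (by positivity)
      _ = 1 / 8 := by norm_num
  linarith

theorem tree_fit {r e : ℕ} (her : e + 3 ≤ r) (hW : r ≤ 2 ^ (r - e - 3)) :
    (2 ^ e + 1) * (2 * (2 ^ (r - e - 3) + r)) ≤ 2 ^ r := by
  obtain ⟨t, ht⟩ : ∃ t, r = e + 3 + t := Nat.exists_eq_add_of_le her
  have ht' : r - e - 3 = t := by omega
  rw [ht'] at hW ⊢
  have h2 : 1 ≤ 2 ^ e := Nat.one_le_two_pow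
  calc (2 ^ e + 1) * (2 * (2 ^ t + r)) ≤ (2 ^ e + 2 ^ e) * (2 * (2 ^ t + 2 ^ t))
        := Nat.mul_le_mul (by omega) (by omega)
    _ = 2 ^ (e + 3 + t) := by ring
    _ = 2 ^ r := by rw [ht]

/-- the bad event for the length `n` and the parameter `e` -/
def badEvent (n e : ℕ) : Set Oracle :=
  {A | ∃ s ≤ 2 ^ (e * Nat.log 2 n), ∃ Q ≤ 2 ^ (e * Nat.log 2 n), ∃ C : Circuit n s Q,
    C.CarryLE (2 ^ (Nat.log 2 n - e - 3)) ∧ ∀ x, C.eval A x = (treeCircuit n).eval A x}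

theorem badEvent_le {n e : ℕ} (hr : 9 ≤ Nat.log 2 n) (he : 6 ≤ e)
    (hW : Nat.log 2 n ≤ 2 ^ (Nat.log 2 n - e - 3)) :
    randomOracle (badEvent n e) ≤ ENNReal.ofReal ((1 / 2) ^ (2 * n)) := by
  classical
  unfold badEvent
  have hn2 : n < 2 ^ (Nat.log 2 n + 1) := Nat.lt_pow_succ_log_self (by norm_num) n
  have hn1 : 2 ^ Nat.log 2 n ≤ n := by
    refine Nat.pow_log_le_self 2 ?_
    rintro rfl
    simp at hr
  unfold treeCircuit
  set r := Nat.log 2 n with hrdef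
  have her : e + 3 ≤ r := by
    by_contra hc
    have : r - e - 3 = 0 := by omega
    rw [this] at hW
    omega
  have hrpos : 0 < r := by omega
  have h6r : 6 * r ≤ e * r := Nat.mul_le_mul_right _ he
  have hSn : n ≤ 2 ^ (e * r) :=
    hn2.le.trans (Nat.pow_le_pow_right (by norm_num) (by omega))
  have hs' : vert r r * (r + 1) ^ 2 ≤ 2 ^ (e * r) :=
    (tree_bits r).trans (Nat.pow_le_pow_right (by norm_num) (by omega))
  have hS6 : 6 ≤ 2 ^ (e * r) := by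
    calc 6 ≤ 2 ^ 3 := by norm_num
      _ ≤ 2 ^ (e * r) := Nat.pow_le_pow_right (by norm_num) (by omega)
  have hq : 18 * (2 ^ (e * r)) ^ 4 < 2 ^ (5 * r ^ 2) := by
    calc 18 * (2 ^ (e * r)) ^ 4 < 2 ^ 5 * (2 ^ (e * r)) ^ 4 :=
          Nat.mul_lt_mul_of_pos_right (by norm_num) (by positivity)
      _ = 2 ^ (5 + e * r * 4) := by rw [← pow_mul, ← pow_add]
      _ ≤ 2 ^ (5 * r ^ 2) := by
          refine Nat.pow_le_pow_right (by norm_num) ?_
          have : (e + 3) * r ≤ r * r := Nat.mul_le_mul_right _ her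
          nlinarith
  have hqn : 5 * r ^ 2 ≤ n := (five_sq_le hr).trans hn1
  refine (union_bound (S := 2 ^ (e * r)) (q := 5 * r ^ 2) (b := 5 * r + 1) (M := vert r r)
    (m := (r + 1) ^ 2) (labCircuit n (5 * r ^ 2) (5 * r + 1) (ch r r)
      (root r r (r + 1) ⟨0, by positivity⟩) ⟨0, by positivity⟩) (tree_bits r)
    (fun s Q C => C.CarryLE (2 ^ (r - e - 3))) hSn hs' hS6 hq ?_).trans ?_
  · intro s Q C hs hC w A
    have h1 := carry_block C (tree_bits r) w (pad n w) A (d0 ((r + 1) ^ 2))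
      (isStack (r := r) (k := r) (Gp := 2 ^ (r - e - 3) + r) hrpos) (by omega)
      (B := 2 ^ e) (by positivity) (tree_fit her hW) hC (by rw [← pow_mul]; exact hs)
      ⟨0, by positivity⟩
    have h2 := carry_params hr her (2 ^ (r - e - 3))
    refine le_trans (le_of_eq ?_) (h1.trans (mul_le_mul_of_nonneg_right h2 (by positivity)))
    congr 2
    refine Finset.filter_congr fun f _ => ?_
    rw [eval_labCircuit, pre_pad hqn, fnO_ovF (tree_bits r)]
  · refine ENNReal.ofReal_le_ofReal (pow_le_pow_of_le_one (by norm_num) (by norm_num) ?_)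
    calc 2 * n ≤ 2 ^ (e * r) * 2 ^ (e * r) := Nat.mul_le_mul (by omega) hSn
      _ ≤ 2 ^ (e * r) * 2 ^ (e * r) * 2 ^ (e * r) := Nat.le_mul_of_pos_right _ (by positivity)
      _ = (2 ^ (e * r)) ^ 3 := by ring

/-- the lower bound for almost every oracle -/
theorem lower_bound : ∀ᵐ A ∂randomOracle, ∀ᶠ n in Filter.atTop, ∀ e, 6 ≤ e →
    Nat.log 2 n ≤ 2 ^ (Nat.log 2 n - e - 3) → ∀ s ≤ 2 ^ (e * Nat.log 2 n),
    ∀ Q ≤ 2 ^ (e * Nat.log 2 n), ∀ C : Circuit n s Q, C.CarryLE (2 ^ (Nat.log 2 n - e - 3)) →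
    ∃ x, C.eval A x ≠ (treeCircuit n).eval A x := by
  let bad : ℕ → Set Oracle := fun n => {A | 9 ≤ Nat.log 2 n ∧ ∃ e, 6 ≤ e ∧
    Nat.log 2 n ≤ 2 ^ (Nat.log 2 n - e - 3) ∧ A ∈ badEvent n e}
  have hbad : ∀ n, randomOracle (bad n) ≤ ENNReal.ofReal ((1 / 2) ^ n) := by
    intro n
    by_cases hr : 9 ≤ Nat.log 2 n
    · have hsub : bad n ⊆ ⋃ e ∈ (Finset.range (Nat.log 2 n)).filter (fun e => 6 ≤ e ∧
          Nat.log 2 n ≤ 2 ^ (Nat.log 2 n - e - 3)), badEvent n e := by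
        rintro A ⟨-, e, h1, h2, h3⟩
        refine Set.mem_iUnion₂.2 ⟨e, Finset.mem_filter.2 ⟨Finset.mem_range.2 ?_, h1, h2⟩, h3⟩
        by_contra hc
        have : Nat.log 2 n - e - 3 = 0 := by omega
        rw [this] at h2
        omega
      calc randomOracle (bad n) ≤ _ := measure_mono hsub
        _ ≤ ∑ e ∈ (Finset.range (Nat.log 2 n)).filter (fun e => 6 ≤ e ∧
          Nat.log 2 n ≤ 2 ^ (Nat.log 2 n - e - 3)), randomOracle (badEvent n e) :=
            measure_biUnion_finset_le _ _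
        _ ≤ ∑ _e ∈ (Finset.range (Nat.log 2 n)).filter (fun e => 6 ≤ e ∧
          Nat.log 2 n ≤ 2 ^ (Nat.log 2 n - e - 3)), ENNReal.ofReal ((1 / 2) ^ (2 * n)) :=
            Finset.sum_le_sum fun e he => badEvent_le hr (Finset.mem_filter.1 he).2.1
              (Finset.mem_filter.1 he).2.2
        _ ≤ n * ENNReal.ofReal ((1 / 2) ^ (2 * n)) := by
            rw [Finset.sum_const, nsmul_eq_mul]
            refine mul_le_mul_left ?_ _
            have h1 : ((Finset.range (Nat.log 2 n)).filter (fun e => 6 ≤ e ∧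
              Nat.log 2 n ≤ 2 ^ (Nat.log 2 n - e - 3))).card ≤ n :=
              (Finset.card_filter_le _ _).trans (by
                rw [Finset.card_range]; exact Nat.log_le_self 2 n)
            exact_mod_cast h1
        _ = ENNReal.ofReal (n * (1 / 2) ^ (2 * n)) := by
            rw [ENNReal.ofReal_mul (by positivity), ENNReal.ofReal_natCast]
        _ ≤ ENNReal.ofReal ((1 / 2) ^ n) := by
            refine ENNReal.ofReal_le_ofReal ?_
            have h1 : (n : ℝ) ≤ 2 ^ n := by exact_mod_cast (Nat.lt_two_pow_self (n := n)).le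
            have h2 : (2 : ℝ) ^ n * (1 / 2) ^ (2 * n) = (1 / 2) ^ n := by
              rw [two_mul n, pow_add, ← mul_assoc, ← mul_pow]
              norm_num
            calc (n : ℝ) * (1 / 2) ^ (2 * n) ≤ 2 ^ n * (1 / 2) ^ (2 * n) :=
                  mul_le_mul_of_nonneg_right h1 (by positivity)
              _ = _ := h2
    · have : bad n = ∅ := by
        ext A
        constructor
        · intro h; exact absurd h.1 hr
        · intro h; exact absurd h (Set.notMem_empty _)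
      rw [this, measure_empty]
      exact zero_le
  have hsum : ∑' n, randomOracle (bad n) ≠ ⊤ := by
    refine ne_top_of_le_ne_top ?_ (ENNReal.tsum_le_tsum hbad)
    rw [← ENNReal.ofReal_tsum_of_nonneg (fun n => by positivity) summable_geometric_two]
    exact ENNReal.ofReal_ne_top
  have hae := ae_eventually_notMem hsum
  filter_upwards [hae] with A hA
  filter_upwards [hA, Filter.eventually_ge_atTop (2 ^ 9)] with n hn hn9 e he hW s hs Q hQ C hC
  by_contra hcon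
  push Not at hcon
  refine hn ⟨?_, e, he, hW, s, hs, Q, hQ, C, hC, hcon⟩
  exact Nat.le_log_of_pow_le (by norm_num) hn9

end Pool.Agent.Q9h3.ROC
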