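import Mathlib.Tactic
import Mathlib.Data.Fintype.Pi
import Mathlib.Data.Fintype.Prod

/-!
# Labellings of graphs by a random function, and counting by resampling labels
-/

namespace Pool.Agent.Q9h3.ROC

/-! ### resampling -/

section modify

variable {P L : Type} {G : ℕ}

open Classical in
/-- the function `f` with new values `y` at the points `p` -/
noncomputable def modify (f : P → L) (p : Fin G → P) (y : Fin G → L) : P → L := fun x =>
  if h : ∃ i, p i = x then y h.choose else f x

theorem modify_at (f : P → L) {p : Fin G → P} (hp : Function.Injective p) (y : Fin G → L)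
    (i : Fin G) : modify f p y (p i) = y i := by
  unfold modify
  have h : ∃ i', p i' = p i := ⟨i, rfl⟩
  rw [dif_pos h]
  exact congrArg y (hp h.choose_spec)

theorem modify_off (f : P → L) (p : Fin G → P) (y : Fin G → L) {x : P} (hx : ∀ i, p i ≠ x) :
    modify f p y x = f x := by
  unfold modify
  rw [dif_neg (by push Not; exact hx)]

theorem class_count [Fintype P] [DecidableEq P] [Fintype L] (E : Finset (P → L))
    (pts : (P → L) → Fin G → P) (hinj : ∀ f ∈ E, Function.Injective (pts f))
    (hinv : ∀ f ∈ E, ∀ y, pts (modify f (pts f) y) = pts f)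
    (huniq : ∀ f ∈ E, ∀ f' ∈ E, pts f' = pts f → (∀ x, (∀ i, pts f i ≠ x) → f' x = f x) → f' = f) :
    E.card * Fintype.card L ^ G ≤ Fintype.card (P → L) := by
  classical
  have h1 : (E ×ˢ (Finset.univ : Finset (Fin G → L))).card = E.card * Fintype.card L ^ G := by
    rw [Finset.card_product, Finset.card_univ, Fintype.card_fun, Fintype.card_fin]
  rw [← h1, ← Finset.card_univ]
  refine Finset.card_le_card_of_injOn (fun t => modify t.1 (pts t.1) t.2)
    (fun _ _ => Finset.mem_coe.2 (Finset.mem_univ _)) ?_
  rintro ⟨f, y⟩ hf ⟨f', y'⟩ hf' h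
  replace hf : f ∈ E := (Finset.mem_product.1 (Finset.mem_coe.1 hf)).1
  replace hf' : f' ∈ E := (Finset.mem_product.1 (Finset.mem_coe.1 hf')).1
  have h : modify f (pts f) y = modify f' (pts f') y' := h
  have hp : pts f' = pts f := by
    rw [← hinv f hf y, ← hinv f' hf' y', h]
  have hy : y = y' := by
    funext i
    rw [← modify_at f (hinj f hf) y i, h, hp, modify_at f' (hinj f hf)]
  have hff : f' = f := by
    refine huniq f hf f' hf' hp fun x hx => ?_
    rw [← modify_off f (pts f) y hx, h, modify_off f' (pts f') y' (by rw [hp]; exact hx)]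
  rw [hff, hy]

end modify

/-! ### labellings -/

section lab

variable {M : ℕ} {L : Type}

/-- The label of the vertex `v`: the value of `f` at the vertex and the labels of its two children
`ch v false`, `ch v true` (a child is missing, and replaced by `d`, if it is not less than `v`). -/
def lab (ch : Fin M → Bool → Fin M) (d : L) (f : Fin M × L × L → L) (v : Fin M) : L :=
  f (v, (if _h : ch v false < v then lab ch d f (ch v false) else d),
    (if _h : ch v true < v then lab ch d f (ch v true) else d))
termination_by v.val
decreasing_by all_goals exact _h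

/-- the label of a child -/
def arg (ch : Fin M → Bool → Fin M) (d : L) (f : Fin M × L × L → L) (v : Fin M) (c : Bool) : L :=
  if ch v c < v then lab ch d f (ch v c) else d

/-- the point where `f` is evaluated for the label of `v` -/
def pt (ch : Fin M → Bool → Fin M) (d : L) (f : Fin M × L × L → L) (v : Fin M) :
    Fin M × L × L :=
  (v, arg ch d f v false, arg ch d f v true)

theorem lab_eq (ch : Fin M → Bool → Fin M) (d : L) (f : Fin M × L × L → L) (v : Fin M) :
    lab ch d f v = f (pt ch d f v) := by
  conv_lhs => unfold lab
  rfl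

/-- `u` can be reached from `v`, going to children -/
inductive Reach (ch : Fin M → Bool → Fin M) : Fin M → Fin M → Prop
  | refl (v : Fin M) : Reach ch v v
  | step (v : Fin M) (c : Bool) (u : Fin M) : ch v c < v → Reach ch (ch v c) u → Reach ch v u

theorem Reach.le {ch : Fin M → Bool → Fin M} {v u : Fin M} (h : Reach ch v u) : u ≤ v := by
  induction h with
  | refl v => exact le_rfl
  | step v c u h _ ih => exact ih.trans h.le

theorem lab_congr (ch : Fin M → Bool → Fin M) (d : L) {f f' : Fin M × L × L → L} :
    ∀ v, (∀ u, Reach ch v u → f' (pt ch d f u) = f (pt ch d f u)) →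
      lab ch d f' v = lab ch d f v := by
  intro v
  induction v using WellFoundedLT.induction with
  | ind v ih =>
    intro h
    have h1 : ∀ c, arg ch d f' v c = arg ch d f v c := by
      intro c
      unfold arg
      by_cases hc : ch v c < v
      · rw [if_pos hc, if_pos hc]
        exact ih _ hc fun u hu => h u (Reach.step v c u hc hu)
      · rw [if_neg hc, if_neg hc]
    have h2 : pt ch d f' v = pt ch d f v := by
      unfold pt
      rw [h1, h1]
    rw [lab_eq, lab_eq, h2]
    exact h v (Reach.refl v)

theorem pt_congr (ch : Fin M → Bool → Fin M) (d : L) {f f' : Fin M × L × L → L} (v : Fin M)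
    (h : ∀ c u, ch v c < v → Reach ch (ch v c) u → f' (pt ch d f u) = f (pt ch d f u)) :
    pt ch d f' v = pt ch d f v := by
  have h1 : ∀ c, arg ch d f' v c = arg ch d f v c := by
    intro c
    unfold arg
    by_cases hc : ch v c < v
    · rw [if_pos hc, if_pos hc]
      exact lab_congr ch d _ fun u hu => h c u hc hu
    · rw [if_neg hc, if_neg hc]
  unfold pt
  rw [h1, h1]

/-- no vertex of the family can be reached from another one -/
def Anti (ch : Fin M → Bool → Fin M) {G : ℕ} (z : Fin G → Fin M) : Prop :=
  ∀ i j, Reach ch (z i) (z j) → i = j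

theorem Anti.inj {ch : Fin M → Bool → Fin M} {G : ℕ} {z : Fin G → Fin M} (h : Anti ch z) :
    Function.Injective z := fun i j hij => h i j (hij ▸ Reach.refl _)

theorem pts_inv {ch : Fin M → Bool → Fin M} (d : L) {G : ℕ} {z : Fin G → Fin M}
    (hz : Anti ch z) (f f' : Fin M × L × L → L)
    (h : ∀ x, (∀ i, pt ch d f (z i) ≠ x) → f' x = f x) (i : Fin G) :
    pt ch d f' (z i) = pt ch d f (z i) := by
  refine pt_congr ch d _ fun c u hc hu => h _ fun j hj => ?_
  have h1 : z j = u := congrArg Prod.fst hj
  have h2 : Reach ch (z i) (z j) := Reach.step _ c _ hc (h1 ▸ hu)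
  have h3 := hz i j h2
  subst h3
  rw [← h1] at hu
  exact absurd (hu.le.trans_lt hc) (lt_irrefl _)

end lab

end Pool.Agent.Q9h3.ROC
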