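import Pool.Agent.Q9h3.RO.Lab

/-!
# Machines with few states which ask for bits of a random function

If a run of a machine meets the parents of `G` independent vertices, but not these vertices
themselves, then it has guessed `G` labels. This is unlikely.
-/

namespace Pool.Agent.Q9h3.ROC

/-- labels -/
abbrev Lb (m : ℕ) : Type := Fin m → Bool

/-- points where the random function is evaluated -/
abbrev Pt (M m : ℕ) : Type := Fin M × Lb m × Lb m

/-- A machine: at time `t` in the state `σ` it asks for a bit of the random function (or for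
nothing), and moves to the next state. At time `t` it is in one of the states `R t`. -/
structure Mach (M m : ℕ) where
  /-- the states -/
  St : Type
  /-- the question -/
  q : ℕ → St → Option (Pt M m × Fin m)
  /-- the next state, for an answer -/
  nx : ℕ → St → Bool → St
  /-- the possible states -/
  R : ℕ → Finset St
  closed : ∀ t σ b, σ ∈ R t → nx t σ b ∈ R (t + 1)

variable {M m : ℕ}

/-- the answer to a question -/
def ans (f : Pt M m → Lb m) : Option (Pt M m × Fin m) → Bool
  | some (p, i) => f p i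
  | none => false

/-- the state after `u` steps from the state `σ` at time `t` -/
def Mach.run (K : Mach M m) (f : Pt M m → Lb m) (t : ℕ) (σ : K.St) : ℕ → K.St
  | 0 => σ
  | u + 1 => K.nx (t + u) (K.run f t σ u) (ans f (K.q (t + u) (K.run f t σ u)))

theorem Mach.run_mem (K : Mach M m) (f : Pt M m → Lb m) (t : ℕ) (σ : K.St) (h : σ ∈ K.R t) :
    ∀ u, K.run f t σ u ∈ K.R (t + u)
  | 0 => h
  | u + 1 => K.closed _ _ _ (K.run_mem f t σ h u)

theorem Mach.run_add (K : Mach M m) (f : Pt M m → Lb m) (t : ℕ) (σ : K.St) (u : ℕ) :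
    ∀ u', K.run f t σ (u + u') = K.run f (t + u) (K.run f t σ u) u'
  | 0 => rfl
  | u' + 1 => by
    show K.nx (t + (u + u')) (K.run f t σ (u + u'))
      (ans f (K.q (t + (u + u')) (K.run f t σ (u + u')))) = K.nx (t + u + u') _ _
    rw [K.run_add f t σ u u', Nat.add_assoc]

theorem Mach.run_congr (K : Mach M m) {f f' : Pt M m → Lb m} (t : ℕ) (σ : K.St) (T : ℕ)
    (h : ∀ u < T, ∀ p i, K.q (t + u) (K.run f t σ u) = some (p, i) → f' p = f p) :
    ∀ u ≤ T, K.run f' t σ u = K.run f t σ u := by
  intro u
  induction u with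
  | zero => intro _; rfl
  | succ u ih =>
    intro hu
    have h1 := ih (by omega)
    show K.nx (t + u) (K.run f' t σ u) (ans f' (K.q (t + u) (K.run f' t σ u))) =
      K.nx (t + u) (K.run f t σ u) (ans f (K.q (t + u) (K.run f t σ u)))
    rw [h1]
    congr 1
    cases hq : K.q (t + u) (K.run f t σ u) with
    | none => rfl
    | some pi =>
      obtain ⟨p, i⟩ := pi
      show f' p i = f p i
      rw [h u (by omega) p i hq]

variable (ch : Fin M → Bool → Fin M) (d : Lb m)

open Classical in
/-- the vertices whose point is met in `T` steps from the state `σ` at time `t` -/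
noncomputable def Mach.hit (K : Mach M m) (f : Pt M m → Lb m) (t : ℕ) (σ : K.St) (T : ℕ) :
    Finset (Fin M) :=
  Finset.univ.filter fun v => ∃ u < T, ∃ i, K.q (t + u) (K.run f t σ u) = some (pt ch d f v, i)

theorem Mach.mem_hit (K : Mach M m) (f : Pt M m → Lb m) (t : ℕ) (σ : K.St) (T : ℕ) (v : Fin M) :
    v ∈ K.hit ch d f t σ T ↔
      ∃ u < T, ∃ i, K.q (t + u) (K.run f t σ u) = some (pt ch d f v, i) := by
  classical
  unfold Mach.hit
  rw [Finset.mem_filter]
  exact ⟨fun h => h.2, fun h => ⟨Finset.mem_univ _, h⟩⟩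

theorem Mach.hit_mono (K : Mach M m) (f : Pt M m → Lb m) (t : ℕ) (σ : K.St) {T T' : ℕ}
    (h : T ≤ T') : K.hit ch d f t σ T ⊆ K.hit ch d f t σ T' := by
  intro v hv
  rw [K.mem_hit] at hv ⊢
  obtain ⟨u, hu, h1⟩ := hv
  exact ⟨u, by omega, h1⟩

theorem Mach.mem_hit_mul (K : Mach M m) (f : Pt M m → Lb m) (t : ℕ) (σ : K.St) (B T : ℕ)
    (v : Fin M) (hv : v ∈ K.hit ch d f t σ (B * T)) :
    ∃ u < B, v ∈ K.hit ch d f (t + u * T) (K.run f t σ (u * T)) T := by
  rw [K.mem_hit] at hv
  obtain ⟨u, hu, i, h⟩ := hv
  have hT : 0 < T := by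
    rcases Nat.eq_zero_or_pos T with h0 | h0
    · subst h0; omega
    · exact h0
  refine ⟨u / T, ?_, ?_⟩
  · exact (Nat.div_lt_iff_lt_mul hT).2 hu
  · rw [K.mem_hit]
    refine ⟨u % T, Nat.mod_lt _ hT, i, ?_⟩
    rw [← K.run_add, Nat.add_assoc]
    have : u / T * T + u % T = u := Nat.div_add_mod' u T
    rw [this]
    exact h

/-- There are `G` independent vertices outside the set `H` which have parents in `H`. -/
def Front (H : Finset (Fin M)) (G : ℕ) : Prop :=
  ∃ z : Fin G → Fin M, Anti ch z ∧ ∀ i, z i ∉ H ∧ ∃ v ∈ H, ∃ c, ch v c = z i ∧ z i < v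

theorem arg_of_pt_eq {f f' : Pt M m → Lb m} {v v' : Fin M}
    (h : pt ch d f v = pt ch d f' v') (c : Bool) : v = v' ∧ arg ch d f v c = arg ch d f' v c := by
  have h1 : v = v' := congrArg Prod.fst h
  subst h1
  refine ⟨rfl, ?_⟩
  cases c with
  | false => exact congrArg (fun p => p.2.1) h
  | true => exact congrArg (fun p => p.2.2) h

open Classical in
/-- It is unlikely that a run meets the parents of `G` independent vertices which it does not
meet. -/
theorem Mach.front_count (K : Mach M m) (t : ℕ) (σ : K.St) (T G : ℕ) :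
    (Finset.univ.filter fun f : Pt M m → Lb m => Front ch (K.hit ch d f t σ T) G).card *
      (2 ^ m) ^ G ≤ (M * T) ^ G * Fintype.card (Pt M m → Lb m) := by
  classical
  let E : (Fin G → Fin M) × (Fin G → Fin T) → Finset (Pt M m → Lb m) := fun za =>
    Finset.univ.filter fun f => Anti ch za.1 ∧ (∀ i, za.1 i ∉ K.hit ch d f t σ T) ∧
      ∀ i, ∃ v c j, K.q (t + za.2 i) (K.run f t σ (za.2 i)) = some (pt ch d f v, j) ∧
        ch v c = za.1 i ∧ za.1 i < v
  have hE : ∀ za, (E za).card * (2 ^ m) ^ G ≤ Fintype.card (Pt M m → Lb m) := by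
    rintro ⟨z, a⟩
    by_cases hz : Anti ch z
    · have hc : (2 ^ m) = Fintype.card (Lb m) := by
        rw [Fintype.card_fun, Fintype.card_bool, Fintype.card_fin]
      rw [hc]
      refine class_count (E (z, a)) (fun f i => pt ch d f (z i)) ?_ ?_ ?_
      · intro f _ i j hij
        exact hz.inj (congrArg Prod.fst hij)
      · intro f _ y
        funext i
        exact pts_inv d hz f _ (fun x hx => modify_off f _ y hx) i
      · intro f hf f' hf' hp hoff
        obtain ⟨-, hf1, hf2⟩ := (Finset.mem_filter.1 hf).2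
        obtain ⟨-, hf1', hf2'⟩ := (Finset.mem_filter.1 hf').2
        have hp' : ∀ i, pt ch d f' (z i) = pt ch d f (z i) := fun i => congrFun hp i
        have hrun : ∀ u ≤ T, K.run f' t σ u = K.run f t σ u := by
          refine K.run_congr t σ T fun u hu p i hq => hoff p fun j hj => ?_
          refine hf1 j ?_
          rw [K.mem_hit]
          exact ⟨u, hu, i, by rw [hq]; congr 2; exact hj.symm⟩
        funext x
        by_cases hx : ∀ i, pt ch d f (z i) ≠ x
        · exact hoff x hx
        · push Not at hx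
          obtain ⟨i, rfl⟩ := hx
          obtain ⟨v, c, j, h1, h2, h3⟩ := hf2 i
          obtain ⟨v', c', j', h1', h2', h3'⟩ := hf2' i
          have hai : (a i : ℕ) ≤ T := (a i).2.le
          have h1'' : some (pt ch d f v, j) = some (pt ch d f' v', j') := by
            rw [← h1, ← h1']
            show _ = K.q (t + a i) (K.run f' t σ (a i))
            rw [hrun _ hai]
          have h4 : pt ch d f v = pt ch d f' v' := congrArg Prod.fst (Option.some.inj h1'')
          obtain ⟨-, h5⟩ := arg_of_pt_eq ch d h4 c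
          have h6 : ch v c < v := by rw [h2]; exact h3
          unfold arg at h5
          rw [if_pos h6, if_pos h6, h2] at h5
          have h5 : lab ch d f (z i) = lab ch d f' (z i) := h5
          rw [lab_eq, lab_eq, hp' i] at h5
          exact h5.symm
    · have : E (z, a) = ∅ := by
        refine Finset.filter_eq_empty_iff.2 fun f _ h => hz h.1
      rw [this]
      simp
  have hsub : (Finset.univ.filter fun f : Pt M m → Lb m => Front ch (K.hit ch d f t σ T) G) ⊆
      (Finset.univ : Finset ((Fin G → Fin M) × (Fin G → Fin T))).biUnion E := by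
    intro f hf
    obtain ⟨z, hz, h⟩ := (Finset.mem_filter.1 hf).2
    have h' : ∀ i, ∃ a : Fin T, ∃ v c j, K.q (t + a) (K.run f t σ a) = some (pt ch d f v, j) ∧
        ch v c = z i ∧ z i < v := by
      intro i
      obtain ⟨-, v, hv, c, h1, h2⟩ := h i
      rw [K.mem_hit] at hv
      obtain ⟨u, hu, j, hq⟩ := hv
      exact ⟨⟨u, hu⟩, v, c, j, hq, h1, h2⟩
    choose a ha using h'
    refine Finset.mem_biUnion.2 ⟨(z, a), Finset.mem_univ _, Finset.mem_filter.2
      ⟨Finset.mem_univ _, hz, fun i => (h i).1, ha⟩⟩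
  have hcard : (Finset.univ.filter fun f : Pt M m → Lb m =>
      Front ch (K.hit ch d f t σ T) G).card ≤ ∑ za, (E za).card :=
    (Finset.card_le_card hsub).trans Finset.card_biUnion_le
  calc _ ≤ (∑ za, (E za).card) * (2 ^ m) ^ G := Nat.mul_le_mul_right _ hcard
    _ = ∑ za, (E za).card * (2 ^ m) ^ G := Finset.sum_mul _ _ _
    _ ≤ ∑ _za : (Fin G → Fin M) × (Fin G → Fin T), Fintype.card (Pt M m → Lb m) :=
        Finset.sum_le_sum fun za _ => hE za
    _ = _ := by
        rw [Finset.sum_const, Finset.card_univ, Fintype.card_prod, Fintype.card_fun,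
          Fintype.card_fun, Fintype.card_fin, Fintype.card_fin, Fintype.card_fin, smul_eq_mul,
          mul_pow]

end Pool.Agent.Q9h3.ROC
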