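import Pool.Agent.Q9h3.RO.Circ
import Pool.Agent.Q9h3.RO.Mach

/-!
# Circuits which compute labels

For a graph on the vertices `0, …, M - 1` and labels of `m` bits, the gate number `v m + y` asks
for the bit number `y` of the label of `v`: the question is made of the first `q` bits of the
input, the `b` bits of the number of the gate, and the labels of the two children of `v`.
-/

namespace Pool.Agent.Q9h3.ROC

open Pool.Agent.H628R3.RO (Oracle)

/-- the lowest `b` binary digits of `k` -/
def bits (b k : ℕ) : List Bool := List.ofFn fun t : Fin b => k.testBit t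

/-- the string asked by the gate number `g`, if the first `q` bits of the input are `w` and the
labels of the children are `l` and `l'` -/
def qs {q m : ℕ} (b : ℕ) (w : Fin q → Bool) (g : ℕ) (l l' : Lb m) : List Bool :=
  List.ofFn w ++ bits b g ++ List.ofFn l ++ List.ofFn l'

/-- the first `q` bits of the input (filled up with zeros) -/
def pre {n : ℕ} (q : ℕ) (x : Fin n → Bool) : Fin q → Bool := fun i =>
  if h : i.val < n then x ⟨i, h⟩ else false

/-- the number of the gate for the bit `y` of the label of `v` -/
abbrev gn {M m : ℕ} (v : Fin M) (y : Fin m) : Fin (M * m) := finProdFinEquiv (v, y)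

/-- the wires with the label of a child -/
def childWires {n M m : ℕ} (ch : Fin M → Bool → Fin M) (v : Fin M) (c : Bool) :
    List (Wire n (M * m)) :=
  if ch v c < v then List.ofFn fun y : Fin m => Wire.gate (gn (ch v c) y)
  else List.ofFn fun _ : Fin m => Wire.const false

theorem length_childWires {n M m : ℕ} (ch : Fin M → Bool → Fin M) (v : Fin M) (c : Bool) :
    (childWires ch v c : List (Wire n (M * m))).length = m := by
  unfold childWires
  split_ifs <;> simp

/-- the wires with the first `q` bits of the input -/
def inputWires (n q s : ℕ) : List (Wire n s) :=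
  List.ofFn fun i : Fin q => if h : i.val < n then Wire.input ⟨i, h⟩ else Wire.const false

/-- the arguments of the gate number `g` -/
def labWires (n q b : ℕ) {M m : ℕ} (ch : Fin M → Bool → Fin M) (g : Fin (M * m)) :
    List (Wire n (M * m)) :=
  inputWires n q (M * m) ++ (List.ofFn fun t : Fin b => Wire.const (g.val.testBit t)) ++
    childWires ch g.divNat false ++ childWires ch g.divNat true

theorem length_labWires (n q b : ℕ) {M m : ℕ} (ch : Fin M → Bool → Fin M) (g : Fin (M * m)) :
    (labWires n q b ch g).length = q + b + 2 * m := by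
  unfold labWires inputWires
  simp only [List.length_append, List.length_ofFn, length_childWires]
  ring

theorem mem_childWires {n M m : ℕ} {ch : Fin M → Bool → Fin M} {v : Fin M} {c : Bool}
    {h : Fin (M * m)} (hh : Wire.gate h ∈ (childWires ch v c : List (Wire n (M * m)))) :
    ch v c < v ∧ h.divNat = ch v c := by
  unfold childWires at hh
  split_ifs at hh with h1
  · refine ⟨h1, ?_⟩
    rw [List.mem_ofFn] at hh
    obtain ⟨y, hy⟩ := hh
    have := Wire.gate.inj hy
    rw [← this]
    exact congrArg Prod.fst (finProdFinEquiv.symm_apply_apply (ch v c, y))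
  · rw [List.mem_ofFn] at hh
    obtain ⟨y, hy⟩ := hh
    exact absurd hy (by simp)

theorem mem_labWires {n q b M m : ℕ} {ch : Fin M → Bool → Fin M} {g h : Fin (M * m)}
    (hh : Wire.gate h ∈ labWires n q b ch g) :
    ∃ c, ch g.divNat c < g.divNat ∧ h.divNat = ch g.divNat c := by
  unfold labWires inputWires at hh
  simp only [List.mem_append] at hh
  rcases hh with ((hh | hh) | hh) | hh
  · rw [List.mem_ofFn] at hh
    obtain ⟨i, hi⟩ := hh
    split_ifs at hi
  · rw [List.mem_ofFn] at hh
    obtain ⟨i, hi⟩ := hh
    exact absurd hi (by simp)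
  · exact ⟨false, mem_childWires hh⟩
  · exact ⟨true, mem_childWires hh⟩

theorem lt_of_divNat_lt {M m : ℕ} {g h : Fin (M * m)} (hh : h.divNat < g.divNat) : h < g := by
  have h1 : h.val / m < g.val / m := hh
  by_contra hc
  push Not at hc
  have : g.val / m ≤ h.val / m := Nat.div_le_div_right hc
  omega

/-- The circuit which computes the bit `y` of the label of the vertex `z`. -/
def labCircuit (n q b : ℕ) {M m : ℕ} (ch : Fin M → Bool → Fin M) (z : Fin M) (y : Fin m) :
    Circuit n (M * m) (q + b + 2 * m) where
  gate g := .query ⟨(labWires n q b ch g).length, by rw [length_labWires]; omega⟩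
    fun i => (labWires n q b ch g).get i
  out := Wire.gate (gn z y)
  earlier g h hh := by
    have h1 : Wire.gate h ∈ labWires n q b ch g := by
      have : Wire.gate h ∈ List.ofFn (labWires n q b ch g).get := hh
      rwa [List.ofFn_get] at this
    obtain ⟨c, h2, h3⟩ := mem_labWires h1
    exact lt_of_divNat_lt (h3 ▸ h2)

theorem args_labCircuit {n q b M m : ℕ} (ch : Fin M → Bool → Fin M) (z : Fin M) (y : Fin m)
    (g : Fin (M * m)) :
    ((labCircuit n q b ch z y).gate g).args = labWires n q b ch g := by
  show List.ofFn (labWires n q b ch g).get = _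
  rw [List.ofFn_get]

/-- the random function for the input `x` given by the oracle -/
def fnO {q m : ℕ} (b : ℕ) (M : ℕ) (A : Oracle) (w : Fin q → Bool) : Pt M m → Lb m :=
  fun p y => A (qs b w (gn p.1 y) p.2.1 p.2.2)

/-- the default label -/
def d0 (m : ℕ) : Lb m := fun _ => false

theorem str_labCircuit {n q b M m : ℕ} (ch : Fin M → Bool → Fin M) (z : Fin M) (y : Fin m)
    (A : Oracle) (x : Fin n → Bool) (v : Fin M) (i : Fin m)
    (hv : ∀ u < v, ∀ j, (labCircuit n q b ch z y).val A x (gn u j) =
      lab ch (d0 m) (fnO b M A (pre q x)) u j) :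
    ((labCircuit n q b ch z y).gate (gn v i)).str x ((labCircuit n q b ch z y).val A x) =
      some (qs b (pre q x) (gn v i)
        (pt ch (d0 m) (fnO b M A (pre q x)) v).2.1
        (pt ch (d0 m) (fnO b M A (pre q x)) v).2.2) := by
  set val := (labCircuit n q b ch z y).val A x with hval
  have hdiv : (gn v i).divNat = v :=
    congrArg Prod.fst (finProdFinEquiv.symm_apply_apply (v, i))
  show some (List.ofFn fun j => Wire.val x val ((labWires n q b ch (gn v i)).get j)) = _
  congr 1
  have e1 : (List.ofFn fun j => Wire.val x val ((labWires n q b ch (gn v i)).get j)) =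
      (labWires n q b ch (gn v i)).map (Wire.val x val) := by
    conv_rhs => rw [← List.ofFn_get (labWires n q b ch (gn v i)), List.map_ofFn]
    rfl
  rw [e1]
  have hc : ∀ c, (childWires ch v c : List (Wire n (M * m))).map (Wire.val x val) =
      List.ofFn (arg ch (d0 m) (fnO b M A (pre q x)) v c) := by
    intro c
    unfold childWires arg
    split_ifs with h
    · rw [List.map_ofFn]
      congr 1
      funext j
      exact hv _ h j
    · rw [List.map_ofFn]
      rfl
  unfold labWires inputWires qs bits
  rw [hdiv]
  simp only [List.map_append, hc, List.map_ofFn]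
  congr 3
  congr 1
  funext j
  unfold pre
  show Wire.val x val (if h : j.val < n then Wire.input ⟨j, h⟩ else Wire.const false) = _
  split_ifs <;> rfl

theorem val_labCircuit {n q b M m : ℕ} (ch : Fin M → Bool → Fin M) (z : Fin M) (y : Fin m)
    (A : Oracle) (x : Fin n → Bool) (v : Fin M) : ∀ i : Fin m,
    (labCircuit n q b ch z y).val A x (gn v i) = lab ch (d0 m) (fnO b M A (pre q x)) v i := by
  induction v using WellFoundedLT.induction with
  | ind v ih =>
    intro i
    rw [Circuit.val_eq, Gate.val_of_str (str_labCircuit ch z y A x v i fun u hu j => ih u hu j),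
      lab_eq]
    rfl

theorem eval_labCircuit {n q b M m : ℕ} (ch : Fin M → Bool → Fin M) (z : Fin M) (y : Fin m)
    (A : Oracle) (x : Fin n → Bool) :
    (labCircuit n q b ch z y).eval A x = lab ch (d0 m) (fnO b M A (pre q x)) z y :=
  val_labCircuit ch z y A x z y

/-! ### the positions -/

/-- the string where the bit `y` of the value of the random function at the point `p` is found,
for the inputs starting with `w` -/
def posW {q m : ℕ} (b M : ℕ) (w : Fin q → Bool) (p : Pt M m × Fin m) : List Bool :=
  qs b w (gn p.1.1 p.2) p.1.2.1 p.1.2.2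

theorem bits_inj {b k k' : ℕ} (hk : k < 2 ^ b) (hk' : k' < 2 ^ b) (h : bits b k = bits b k') :
    k = k' := by
  unfold bits at h
  have h1 := List.ofFn_injective h
  apply Nat.eq_of_testBit_eq
  intro i
  by_cases hi : i < b
  · exact congrFun h1 ⟨i, hi⟩
  · push Not at hi
    rw [Nat.testBit_eq_false_of_lt (hk.trans_le (Nat.pow_le_pow_right (by norm_num) hi)),
      Nat.testBit_eq_false_of_lt (hk'.trans_le (Nat.pow_le_pow_right (by norm_num) hi))]

theorem posW_inj {q b M m : ℕ} (hb : M * m ≤ 2 ^ b) {w w' : Fin q → Bool}
    {p p' : Pt M m × Fin m} (h : posW b M w p = posW b M w' p') : w = w' ∧ p = p' := by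
  obtain ⟨⟨v, l1, l2⟩, y⟩ := p
  obtain ⟨⟨v', l1', l2'⟩, y'⟩ := p'
  unfold posW qs at h
  obtain ⟨h1, h2⟩ := List.append_inj h (by simp [bits])
  obtain ⟨h3, h4⟩ := List.append_inj h1 (by simp [bits])
  obtain ⟨h5, h6⟩ := List.append_inj h3 (by simp)
  have e1 : w = w' := List.ofFn_injective h5
  have e2 : l1 = l1' := List.ofFn_injective h4
  have e3 : l2 = l2' := List.ofFn_injective h2
  have e4 : gn v y = gn v' y' := Fin.ext (bits_inj (lt_of_lt_of_le (Fin.is_lt _) hb)
    (lt_of_lt_of_le (Fin.is_lt _) hb) h6)
  have e5 := finProdFinEquiv.injective e4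
  have e6 : v = v' := congrArg Prod.fst e5
  have e7 : y = y' := congrArg Prod.snd e5
  exact ⟨e1, by rw [e2, e3, e6, e7]⟩

theorem posW_injective {q b M m : ℕ} (hb : M * m ≤ 2 ^ b) :
    Function.Injective fun t : (Fin q → Bool) × (Pt M m × Fin m) => posW b M t.1 t.2 := by
  rintro ⟨w, p⟩ ⟨w', p'⟩ h
  obtain ⟨h1, h2⟩ : w = w' ∧ p = p' := posW_inj hb h
  rw [h1, h2]

end Pool.Agent.Q9h3.ROC
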