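import Pool.Agent.H628R3.RO.M1

/-!
# Random oracles: resampling finitely many bits
-/

namespace Pool.Agent.Q9h3.ROC

open MeasureTheory
open Pool.Agent.H628R3.RO (Oracle randomOracle prob randomOracle_eq_upd measurable_upd)

theorem prob_split (x : List Bool) {S : Set Oracle} (hS : MeasurableSet S) :
    prob S = 1 / 2 * prob {A | Function.update A x true ∈ S} +
      1 / 2 * prob {A | Function.update A x false ∈ S} := by
  have h1 : randomOracle S = 2⁻¹ * randomOracle {A | Function.update A x true ∈ S} +
      2⁻¹ * randomOracle {A | Function.update A x false ∈ S} := by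
    conv_lhs => rw [← randomOracle_eq_upd x]
    rw [Measure.add_apply, Measure.smul_apply, Measure.smul_apply,
      Measure.map_apply (measurable_upd x true) hS,
      Measure.map_apply (measurable_upd x false) hS]
    rfl
  simp only [prob, measureReal_def, h1]
  rw [ENNReal.toReal_add (by finiteness) (by finiteness), ENNReal.toReal_mul, ENNReal.toReal_mul]
  norm_num

/-- the oracle `A` overwritten on `J` -/
def ow (J T : Finset (List Bool)) (A : Oracle) : Oracle := fun x =>
  if x ∈ J then decide (x ∈ T) else A x

theorem measurable_ow (J T : Finset (List Bool)) : Measurable (ow J T) := by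
  refine measurable_pi_lambda _ fun y => ?_
  unfold ow
  by_cases hy : y ∈ J
  · simp only [if_pos hy]
    exact measurable_const
  · simp only [if_neg hy]
    exact measurable_pi_apply _

theorem prob_resample {S : Set Oracle} (hS : MeasurableSet S) (J : Finset (List Bool)) :
    prob S = ∑ T ∈ J.powerset, (1 / 2) ^ J.card * prob {A | ow J T A ∈ S} := by
  classical
  induction J using Finset.induction_on with
  | empty =>
    have h : {A | ow ∅ ∅ A ∈ S} = S := by
      ext A
      have : ow ∅ ∅ A = A := by funext y; simp [ow]
      show ow ∅ ∅ A ∈ S ↔ A ∈ S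
      rw [this]
    simp [h]
  | insert x J hx ih =>
    rw [ih, Finset.sum_powerset_insert hx, ← Finset.sum_add_distrib,
      Finset.card_insert_of_notMem hx]
    refine Finset.sum_congr rfl fun T hT => ?_
    rw [Finset.mem_powerset] at hT
    have hxT : x ∉ T := fun h => hx (hT h)
    have hm : MeasurableSet {A | ow J T A ∈ S} := measurable_ow J T hS
    rw [prob_split x hm]
    have e1 : {A | Function.update A x true ∈ {A | ow J T A ∈ S}} =
        {A | ow (insert x J) (insert x T) A ∈ S} := by
      ext A
      have : ow J T (Function.update A x true) = ow (insert x J) (insert x T) A := by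
        funext y
        unfold ow
        by_cases hy : y = x
        · subst hy
          simp [hx]
        · simp [hy]
      show ow J T (Function.update A x true) ∈ S ↔ _
      rw [this]
      rfl
    have e2 : {A | Function.update A x false ∈ {A | ow J T A ∈ S}} =
        {A | ow (insert x J) T A ∈ S} := by
      ext A
      have : ow J T (Function.update A x false) = ow (insert x J) T A := by
        funext y
        unfold ow
        by_cases hy : y = x
        · subst hy
          simp [hx, hxT]
        · simp [hy]
      show ow J T (Function.update A x false) ∈ S ↔ _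
      rw [this]
      rfl
    rw [e1, e2, pow_succ]
    ring

open Classical in
/-- the oracle `A` overwritten at the positions `pos` -/
noncomputable def ovw {I : Type} (pos : I → List Bool) (ω : I → Bool) (A : Oracle) : Oracle :=
  fun x => if h : ∃ i, pos i = x then ω h.choose else A x

theorem ovw_pos {I : Type} {pos : I → List Bool} (hpos : Function.Injective pos) (ω : I → Bool)
    (A : Oracle) (i : I) : ovw pos ω A (pos i) = ω i := by
  unfold ovw
  have h : ∃ i', pos i' = pos i := ⟨i, rfl⟩
  rw [dif_pos h]
  exact congrArg ω (hpos h.choose_spec)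

theorem ovw_off {I : Type} {pos : I → List Bool} (ω : I → Bool) (A : Oracle) {x : List Bool}
    (hx : ∀ i, pos i ≠ x) : ovw pos ω A x = A x := by
  unfold ovw
  rw [dif_neg]
  push Not
  exact hx

theorem ovw_eq {I : Type} [Fintype I] [DecidableEq I] {pos : I → List Bool}
    (hpos : Function.Injective pos) (ω : I → Bool) (A : Oracle) :
    ow (Finset.univ.image pos) ((Finset.univ.filter fun i => ω i = true).image pos) A =
      ovw pos ω A := by
  funext x
  by_cases hx : ∃ i, pos i = x
  · obtain ⟨i, rfl⟩ := hx
    rw [ovw_pos hpos]
    unfold ow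
    rw [if_pos (Finset.mem_image_of_mem _ (Finset.mem_univ _))]
    have h1 : pos i ∈ (Finset.univ.filter fun i => ω i = true).image pos ↔ ω i = true := by
      rw [Finset.mem_image]
      constructor
      · rintro ⟨i', h1, h2⟩
        rw [← hpos h2]
        exact (Finset.mem_filter.1 h1).2
      · intro h
        exact ⟨i, Finset.mem_filter.2 ⟨Finset.mem_univ _, h⟩, rfl⟩
    cases h : ω i
    · rw [decide_eq_false_iff_not, h1, h]
      simp
    · rw [decide_eq_true_eq, h1, h]
  · have hx' : ∀ i, pos i ≠ x := fun i hi => hx ⟨i, hi⟩
    rw [ovw_off ω A hx']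
    unfold ow
    rw [if_neg]
    rw [Finset.mem_image]
    rintro ⟨i, _, hi⟩
    exact hx' i hi

theorem measurable_ovw {I : Type} [Fintype I] [DecidableEq I] {pos : I → List Bool}
    (hpos : Function.Injective pos) (ω : I → Bool) : Measurable (ovw pos ω) := by
  have : ovw pos ω = ow (Finset.univ.image pos)
      ((Finset.univ.filter fun i => ω i = true).image pos) :=
    funext fun A => (ovw_eq hpos ω A).symm
  rw [this]
  exact measurable_ow _ _

theorem prob_ovw {I : Type} [Fintype I] [DecidableEq I] {pos : I → List Bool}
    (hpos : Function.Injective pos) {S : Set Oracle} (hS : MeasurableSet S) :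
    prob S = ∑ ω : I → Bool, (1 / 2) ^ Fintype.card I * prob {A | ovw pos ω A ∈ S} := by
  classical
  rw [prob_resample hS (Finset.univ.image pos)]
  have hc : (Finset.univ.image pos).card = Fintype.card I := by
    rw [Finset.card_image_of_injective _ hpos, Finset.card_univ]
  symm
  refine Finset.sum_bij' (fun ω _ => (Finset.univ.filter fun i => ω i = true).image pos)
    (fun T _ => fun i => decide (pos i ∈ T)) ?_ ?_ ?_ ?_ ?_
  · intro ω _
    rw [Finset.mem_powerset]
    exact Finset.image_subset_image (Finset.subset_univ _)
  · intro T _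
    exact Finset.mem_univ _
  · intro ω _
    funext i
    have h1 : pos i ∈ (Finset.univ.filter fun i => ω i = true).image pos ↔ ω i = true := by
      rw [Finset.mem_image]
      constructor
      · rintro ⟨i', h1, h2⟩
        rw [← hpos h2]
        exact (Finset.mem_filter.1 h1).2
      · intro h
        exact ⟨i, Finset.mem_filter.2 ⟨Finset.mem_univ _, h⟩, rfl⟩
    show decide _ = ω i
    cases h : ω i
    · rw [decide_eq_false_iff_not, h1, h]
      simp
    · rw [decide_eq_true_eq, h1, h]
  · intro T hT
    rw [Finset.mem_powerset] at hT
    ext x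
    rw [Finset.mem_image]
    constructor
    · rintro ⟨i, h1, rfl⟩
      simpa using (Finset.mem_filter.1 h1).2
    · intro hx
      obtain ⟨i, _, hi⟩ := Finset.mem_image.1 (hT hx)
      exact ⟨i, Finset.mem_filter.2 ⟨Finset.mem_univ _, by simpa [hi] using hx⟩, hi⟩
  · intro ω _
    rw [hc]
    congr 2
    ext A
    show _ ↔ ow _ _ A ∈ S
    rw [ovw_eq hpos]
    rfl

open Classical in
/-- If for every oracle at most the fraction `β` of the possible bits at the positions `pos` leads
to `S`, then `S` has probability at most `β`. -/
theorem prob_le_of_fiber {I : Type} [Fintype I] [DecidableEq I] {pos : I → List Bool}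
    (hpos : Function.Injective pos) {S : Set Oracle} (hS : MeasurableSet S) {β : ℝ}
    (h : ∀ A, ((Finset.univ.filter fun ω : I → Bool => ovw pos ω A ∈ S).card : ℝ) ≤
      β * Fintype.card (I → Bool)) : prob S ≤ β := by
  rw [prob_ovw hpos hS, ← Finset.mul_sum]
  have e1 : ∀ ω : I → Bool, prob {A | ovw pos ω A ∈ S} =
      ∫ A, (if ovw pos ω A ∈ S then (1 : ℝ) else 0) ∂randomOracle := by
    intro ω
    have hm : MeasurableSet {A | ovw pos ω A ∈ S} := measurable_ovw hpos ω hS
    have h2 := integral_indicator_one (μ := randomOracle) hm
    rw [prob, ← h2]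
    refine integral_congr_ae (Filter.Eventually.of_forall fun A => ?_)
    show Set.indicator _ _ A = _
    rw [Set.indicator_apply]
    rfl
  have hint : ∀ ω : I → Bool, Integrable
      (fun A => (if ovw pos ω A ∈ S then (1 : ℝ) else 0)) randomOracle := by
    intro ω
    have hm : MeasurableSet {A | ovw pos ω A ∈ S} := measurable_ovw hpos ω hS
    have h2 : Integrable (Set.indicator {A | ovw pos ω A ∈ S} (1 : Oracle → ℝ)) randomOracle :=
      (integrable_const (1 : ℝ)).indicator hm
    refine h2.congr (Filter.Eventually.of_forall fun A => ?_)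
    show Set.indicator _ _ A = _
    rw [Set.indicator_apply]
    rfl
  have e2 : ∑ ω : I → Bool, prob {A | ovw pos ω A ∈ S} =
      ∫ A, ∑ ω : I → Bool, (if ovw pos ω A ∈ S then (1 : ℝ) else 0) ∂randomOracle := by
    rw [integral_finsetSum _ fun ω _ => hint ω]
    exact Finset.sum_congr rfl fun ω _ => e1 ω
  have e3 : ∑ ω : I → Bool, prob {A | ovw pos ω A ∈ S} ≤ β * Fintype.card (I → Bool) := by
    rw [e2]
    have h3 : ∫ _A : Oracle, β * (Fintype.card (I → Bool) : ℝ) ∂randomOracle =
        β * Fintype.card (I → Bool) := by simp
    rw [← h3]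
    refine integral_mono (integrable_finsetSum _ fun ω _ => hint ω) (integrable_const _)
      fun A => ?_
    show ∑ ω : I → Bool, (if ovw pos ω A ∈ S then (1 : ℝ) else 0) ≤ _
    refine le_trans (le_of_eq ?_) (h A)
    rw [Finset.card_filter]
    push_cast
    rfl
  calc (1 / 2 : ℝ) ^ Fintype.card I * ∑ ω : I → Bool, prob {A | ovw pos ω A ∈ S} ≤
      (1 / 2) ^ Fintype.card I * (β * Fintype.card (I → Bool)) :=
        mul_le_mul_of_nonneg_left e3 (by positivity)
    _ = β := by
        rw [Fintype.card_fun, Fintype.card_bool]
        push_cast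
        rw [one_div, inv_pow]
        field_simp

end Pool.Agent.Q9h3.ROC
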