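import Mathlib.Tactic
import Mathlib.Data.Fintype.Pi
import Mathlib.Data.Fintype.Prod

/-!
# Many events, each of which looks at few bits

The random bits come in blocks, numbered by `X`. Every event `E x` can be decided by looking at at
most `D` bits (chosen adaptively); given all other blocks, its probability is at most `δ`. Then
the probability that all of them happen is at most `δ ^ K`, if `K D < |X|`.
-/

namespace Pool.Agent.Q9h3.ROC

variable {X R : Type} [Fintype X] [DecidableEq X] [Fintype R] [DecidableEq R]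

/-- new bits `g` in the block `x` -/
def updB (ω : X × R → Bool) (x : X) (g : R → Bool) : X × R → Bool := fun p =>
  if p.1 = x then g p.2 else ω p

open Classical in
/-- the cylinder: agreement with `ρ` on `D₀` -/
noncomputable def cylB (D₀ : Finset (X × R)) (ρ : X × R → Bool) : Finset (X × R → Bool) :=
  Finset.univ.filter fun ω => ∀ p ∈ D₀, ω p = ρ p

theorem mem_cylB (D₀ : Finset (X × R)) (ρ ω : X × R → Bool) :
    ω ∈ cylB D₀ ρ ↔ ∀ p ∈ D₀, ω p = ρ p := by
  classical
  unfold cylB
  rw [Finset.mem_filter]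
  exact ⟨fun h => h.2, fun h => ⟨Finset.mem_univ _, h⟩⟩

open Classical in
theorem cyl_event {E : X → (X × R → Bool) → Prop} {δ : ℝ}
    (hδ : ∀ x ω, ((Finset.univ.filter fun g : R → Bool => E x (updB ω x g)).card : ℝ) ≤
      δ * Fintype.card (R → Bool)) (D₀ : Finset (X × R)) (ρ : X × R → Bool) (x : X)
    (hx : ∀ p ∈ D₀, p.1 ≠ x) :
    (((cylB D₀ ρ).filter fun ω => E x ω).card : ℝ) ≤ δ * (cylB D₀ ρ).card := by
  classical
  set Cy := cylB D₀ ρ with hCy
  -- count the pairs `(ω, g)` with `E x (updB ω x g)`
  have h1 : ((((Cy ×ˢ (Finset.univ : Finset (R → Bool))).filter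
      fun t => E x (updB t.1 x t.2)).card : ℕ) : ℝ) ≤ δ * Fintype.card (R → Bool) * Cy.card := by
    have e : ((Cy ×ˢ (Finset.univ : Finset (R → Bool))).filter
        fun t => E x (updB t.1 x t.2)).card =
        ∑ ω ∈ Cy, (Finset.univ.filter fun g : R → Bool => E x (updB ω x g)).card := by
      rw [Finset.card_filter, Finset.sum_product]
      refine Finset.sum_congr rfl fun ω _ => ?_
      rw [Finset.card_filter]
    rw [e]
    push_cast
    calc _ ≤ ∑ _ω ∈ Cy, δ * Fintype.card (R → Bool) := Finset.sum_le_sum fun ω _ => hδ x ω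
      _ = _ := by rw [Finset.sum_const, nsmul_eq_mul]; ring
  have h2 : (Cy.filter fun ω => E x ω).card * Fintype.card (R → Bool) ≤
      ((Cy ×ˢ (Finset.univ : Finset (R → Bool))).filter
      fun t => E x (updB t.1 x t.2)).card := by
    rw [← Finset.card_univ (α := R → Bool), ← Finset.card_product]
    refine Finset.card_le_card_of_injOn
      (fun t => (updB t.1 x t.2, fun i => t.1 (x, i))) ?_ ?_
    · rintro ⟨ω, g⟩ ht
      have ht := (Finset.mem_product.1 (Finset.mem_coe.1 ht)).1
      obtain ⟨h3, h4⟩ := Finset.mem_filter.1 ht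
      have h5 : updB (updB ω x g) x (fun i => ω (x, i)) = ω := by
        funext p
        unfold updB
        by_cases hp : p.1 = x
        · rw [if_pos hp]
          subst hp
          rfl
        · rw [if_neg hp, if_neg hp]
      refine Finset.mem_coe.2 (Finset.mem_filter.2 ⟨Finset.mem_product.2
        ⟨?_, Finset.mem_univ _⟩, ?_⟩)
      · rw [hCy, mem_cylB] at h3 ⊢
        intro p hp
        show updB ω x g p = ρ p
        unfold updB
        rw [if_neg (hx p hp)]
        exact h3 p hp
      · show E x (updB (updB ω x g) x (fun i => ω (x, i)))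
        rw [h5]
        exact h4
    · rintro ⟨ω, g⟩ _ ⟨ω', g'⟩ _ h
      have ha : updB ω x g = updB ω' x g' := congrArg Prod.fst h
      have hb : (fun i => ω (x, i)) = fun i => ω' (x, i) := congrArg Prod.snd h
      have hg : g = g' := by
        funext i
        have := congrFun ha (x, i)
        simpa [updB] using this
      have hω : ω = ω' := by
        funext p
        by_cases hp : p.1 = x
        · have := congrFun hb p.2
          obtain ⟨p1, p2⟩ := p
          subst hp
          exact this
        · have := congrFun ha p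
          simpa [updB, hp] using this
      rw [hg, hω]
  have h2' : ((Cy.filter fun ω => E x ω).card : ℝ) * Fintype.card (R → Bool) ≤
      ((((Cy ×ˢ (Finset.univ : Finset (R → Bool))).filter
      fun t => E x (updB t.1 x t.2)).card : ℕ) : ℝ) := by exact_mod_cast h2
  have hpos : (0 : ℝ) < Fintype.card (R → Bool) := by
    exact_mod_cast Fintype.card_pos
  have h3 : ((Cy.filter fun ω => E x ω).card : ℝ) * Fintype.card (R → Bool) ≤
      (δ * Cy.card) * Fintype.card (R → Bool) := by linarith [h2'.trans h1]
  exact le_of_mul_le_mul_right h3 hpos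

open Classical in
/-- Many events, each of which looks at few bits. -/
theorem product_bound {E : X → (X × R → Bool) → Prop} {τ : X → (X × R → Bool) → Finset (X × R)}
    {D : ℕ} (hτ : ∀ x ω, (τ x ω).card ≤ D)
    (hcert : ∀ x ω ω', (∀ p ∈ τ x ω, ω' p = ω p) → τ x ω' = τ x ω ∧ (E x ω' ↔ E x ω))
    {δ : ℝ} (hδ0 : 0 ≤ δ)
    (hδ : ∀ x ω, ((Finset.univ.filter fun g : R → Bool => E x (updB ω x g)).card : ℝ) ≤
      δ * Fintype.card (R → Bool)) :
    ∀ (K : ℕ) (D₀ : Finset (X × R)), D₀.card + K * D < Fintype.card X → ∀ ρ,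
      (((cylB D₀ ρ).filter fun ω => ∀ x, E x ω).card : ℝ) ≤ δ ^ K * (cylB D₀ ρ).card := by
  classical
  intro K
  induction K with
  | zero =>
    intro D₀ _ ρ
    rw [pow_zero, one_mul]
    exact_mod_cast Finset.card_filter_le _ _
  | succ K ih =>
    intro D₀ hD ρ
    -- a fresh block
    obtain ⟨x, hx⟩ : ∃ x : X, x ∉ D₀.image Prod.fst := by
      by_contra h
      push Not at h
      have h1 : (D₀.image Prod.fst).card = Fintype.card X := by
        rw [← Finset.card_univ]
        congr 1
        exact Finset.eq_univ_iff_forall.2 h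
      have h2 : (D₀.image Prod.fst).card ≤ D₀.card := Finset.card_image_le
      have h3 : 0 ≤ (K + 1) * D := Nat.zero_le _
      omega
    have hx' : ∀ p ∈ D₀, p.1 ≠ x := fun p hp h => hx (h ▸ Finset.mem_image_of_mem _ hp)
    set S := (cylB D₀ ρ).filter fun ω => E x ω with hS
    set Sall := (cylB D₀ ρ).filter fun ω => ∀ x, E x ω with hSall
    have h1 : (S.card : ℝ) ≤ δ * (cylB D₀ ρ).card := cyl_event hδ D₀ ρ x hx'
    let κ : (X × R → Bool) → (X × R → Option Bool) := fun ω p =>
      if p ∈ τ x ω then some (ω p) else none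
    have hmaps : ∀ ω ∈ Sall, κ ω ∈ S.image κ := by
      intro ω hω
      obtain ⟨h2, h3⟩ := Finset.mem_filter.1 hω
      exact Finset.mem_image_of_mem _ (Finset.mem_filter.2 ⟨h2, h3 x⟩)
    have hmaps' : ∀ ω ∈ S, κ ω ∈ S.image κ := fun ω hω => Finset.mem_image_of_mem _ hω
    have h2 : (Sall.card : ℝ) ≤ δ ^ K * S.card := by
      rw [Finset.card_eq_sum_card_fiberwise (f := κ) (t := S.image κ)
        (fun ω hω => Finset.mem_coe.2 (hmaps ω (Finset.mem_coe.1 hω))),
        Finset.card_eq_sum_card_fiberwise (f := κ) (t := S.image κ) (s := S)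
        (fun ω hω => Finset.mem_coe.2 (hmaps' ω (Finset.mem_coe.1 hω)))]
      push_cast
      rw [Finset.mul_sum]
      refine Finset.sum_le_sum fun k hk => ?_
      obtain ⟨ω₀, hω₀, rfl⟩ := Finset.mem_image.1 hk
      obtain ⟨hc₀, hE₀⟩ := Finset.mem_filter.1 hω₀
      have hfib : S.filter (fun ω => κ ω = κ ω₀) = cylB (D₀ ∪ τ x ω₀) ω₀ := by
        ext ω
        rw [Finset.mem_filter, mem_cylB]
        constructor
        · rintro ⟨hω, hk⟩ p hp
          obtain ⟨hc, -⟩ := Finset.mem_filter.1 hω
          rw [mem_cylB] at hc hc₀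
          rcases Finset.mem_union.1 hp with hp | hp
          · rw [hc p hp, hc₀ p hp]
          · have h3 : κ ω p = κ ω₀ p := congrFun hk p
            have h4 : κ ω₀ p = some (ω₀ p) := if_pos hp
            rw [h4] at h3
            by_cases hp' : p ∈ τ x ω
            · have h5 : κ ω p = some (ω p) := if_pos hp'
              rw [h5] at h3
              exact Option.some.inj h3
            · have h5 : κ ω p = none := if_neg hp'
              rw [h5] at h3
              exact absurd h3 (by simp)
        · intro h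
          have h3 : ∀ p ∈ τ x ω₀, ω p = ω₀ p := fun p hp => h p (Finset.mem_union_right _ hp)
          obtain ⟨h4, h5⟩ := hcert x ω₀ ω h3
          refine ⟨Finset.mem_filter.2 ⟨?_, h5.2 hE₀⟩, ?_⟩
          · rw [mem_cylB] at hc₀ ⊢
            intro p hp
            rw [h p (Finset.mem_union_left _ hp), hc₀ p hp]
          · funext p
            show (if p ∈ τ x ω then some (ω p) else none) =
              (if p ∈ τ x ω₀ then some (ω₀ p) else none)
            rw [h4]
            by_cases hp : p ∈ τ x ω₀
            · rw [if_pos hp, if_pos hp, h3 p hp]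
            · rw [if_neg hp, if_neg hp]
      have hfib2 : Sall.filter (fun ω => κ ω = κ ω₀) ⊆
          (cylB (D₀ ∪ τ x ω₀) ω₀).filter fun ω => ∀ x, E x ω := by
        intro ω hω
        obtain ⟨h3, h4⟩ := Finset.mem_filter.1 hω
        obtain ⟨h5, h6⟩ := Finset.mem_filter.1 h3
        refine Finset.mem_filter.2 ⟨?_, h6⟩
        rw [← hfib]
        exact Finset.mem_filter.2 ⟨Finset.mem_filter.2 ⟨h5, h6 x⟩, h4⟩
      rw [hfib]
      refine le_trans ?_ (ih (D₀ ∪ τ x ω₀) ?_ ω₀)
      · exact_mod_cast Finset.card_le_card hfib2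
      · have h3 := Finset.card_union_le D₀ (τ x ω₀)
        have h4 := hτ x ω₀
        have h5 : (K + 1) * D = K * D + D := by ring
        omega
    calc (Sall.card : ℝ) ≤ δ ^ K * S.card := h2
      _ ≤ δ ^ K * (δ * (cylB D₀ ρ).card) := mul_le_mul_of_nonneg_left h1 (by positivity)
      _ = _ := by ring

open Classical in
theorem product_bound' {E : X → (X × R → Bool) → Prop}
    {τ : X → (X × R → Bool) → Finset (X × R)}
    {D : ℕ} (hτ : ∀ x ω, (τ x ω).card ≤ D)
    (hcert : ∀ x ω ω', (∀ p ∈ τ x ω, ω' p = ω p) → τ x ω' = τ x ω ∧ (E x ω' ↔ E x ω))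
    {δ : ℝ} (hδ0 : 0 ≤ δ)
    (hδ : ∀ x ω, ((Finset.univ.filter fun g : R → Bool => E x (updB ω x g)).card : ℝ) ≤
      δ * Fintype.card (R → Bool)) (K : ℕ) (hK : K * D < Fintype.card X) :
    ((Finset.univ.filter fun ω : X × R → Bool => ∀ x, E x ω).card : ℝ) ≤
      δ ^ K * Fintype.card (X × R → Bool) := by
  have h := product_bound hτ hcert hδ0 hδ K ∅ (by simpa using hK) (fun _ => false)
  have h1 : cylB (∅ : Finset (X × R)) (fun _ => false) = Finset.univ := by
    ext ω
    rw [mem_cylB]
    simp
  rw [h1, Finset.card_univ] at h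
  exact h

end Pool.Agent.Q9h3.ROC
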