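import Pool.Agent.Q9h3.RO.Sim
import Pool.Agent.Q9h3.RO.Product

/-!
# The probability that a circuit computes the labels for all inputs
-/

namespace Pool.Agent.Q9h3.ROC

open MeasureTheory
open Pool.Agent.H628R3.RO (Oracle randomOracle prob measurableSet_of_loc Loc)

variable {n s Q q M m : ℕ}

/-- the strings asked by the gates of a circuit -/
def asked (C : Circuit n s Q) (A : Oracle) (x : Fin n → Bool) : Finset (Option (List Bool)) :=
  Finset.univ.image fun g => (C.gate g).str x (C.val A x)

theorem asked_card (C : Circuit n s Q) (A : Oracle) (x : Fin n → Bool) :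
    (asked C A x).card ≤ s :=
  Finset.card_image_le.trans (by rw [Finset.card_univ, Fintype.card_fin])

theorem val_of_asked (C : Circuit n s Q) {A A' : Oracle} {x : Fin n → Bool}
    (h : ∀ z, some z ∈ asked C A x → A' z = A z) : C.val A' x = C.val A x :=
  C.val_congr fun g z hz => h z (Finset.mem_image.2 ⟨g, Finset.mem_univ _, hz⟩)

theorem asked_congr (C : Circuit n s Q) {A A' : Oracle} {x : Fin n → Bool}
    (h : ∀ z, some z ∈ asked C A x → A' z = A z) : asked C A' x = asked C A x := by
  unfold asked
  rw [val_of_asked C h]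

theorem eval_congr (C : Circuit n s Q) {A A' : Oracle} {x : Fin n → Bool}
    (h : ∀ z, some z ∈ asked C A x → A' z = A z) : C.eval A' x = C.eval A x := by
  unfold Circuit.eval
  rw [val_of_asked C h]

/-- an input with given first bits -/
def pad (n : ℕ) (w : Fin q → Bool) : Fin n → Bool := fun i =>
  if h : i.val < q then w ⟨i, h⟩ else false

theorem pre_pad (hq : q ≤ n) (w : Fin q → Bool) : pre q (pad n w) = w := by
  funext i
  unfold pre pad
  have h1 : i.val < n := i.2.trans_le hq
  rw [dif_pos h1]
  exact dif_pos i.2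

/-- the positions of the random bits for all blocks -/
def posA (b q M m : ℕ) : (Fin q → Bool) × (Pt M m × Fin m) → List Bool := fun t =>
  posW b M t.1 t.2

theorem ovw_updB {b : ℕ} (hb : M * m ≤ 2 ^ b) (ω : (Fin q → Bool) × (Pt M m × Fin m) → Bool)
    (w : Fin q → Bool) (g : Pt M m × Fin m → Bool) (A : Oracle) :
    ovw (posA b q M m) (updB ω w g) A =
      ovF b w (fun p i => g (p, i)) (ovw (posA b q M m) ω A) := by
  have hinj : Function.Injective (posA b q M m) := posW_injective hb
  funext z
  by_cases hz : ∃ p : Pt M m × Fin m, posW b M w p = z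
  · obtain ⟨p, rfl⟩ := hz
    rw [ovF_pos hb]
    have : posW b M w p = posA b q M m (w, p) := rfl
    rw [this, ovw_pos hinj]
    show (if w = w then g p else ω (w, p)) = g (p.1, p.2)
    rw [if_pos rfl]
  · push Not at hz
    unfold ovF
    rw [ovw_off _ _ hz]
    by_cases hz' : ∃ t, posA b q M m t = z
    · obtain ⟨t, rfl⟩ := hz'
      rw [ovw_pos hinj, ovw_pos hinj]
      unfold updB
      rw [if_neg]
      rintro rfl
      exact hz t.2 rfl
    · push Not at hz'
      rw [ovw_off _ _ hz', ovw_off _ _ hz']

theorem measurable_correct {s' Q' : ℕ} (C : Circuit n s Q) (U : Circuit n s' Q') :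
    MeasurableSet {A : Oracle | ∀ x, C.eval A x = U.eval A x} := by
  have hstr : ∀ {s Q : ℕ} (C : Circuit n s Q) (A : Oracle) (x : Fin n → Bool) (z : List Bool),
      some z ∈ asked C A x → z.length ≤ Q := by
    intro s Q C A x z hz
    obtain ⟨g, -, hg⟩ := Finset.mem_image.1 hz
    cases hgg : C.gate g with
    | not a => rw [hgg] at hg; exact absurd hg (by simp [Gate.str])
    | and a b => rw [hgg] at hg; exact absurd hg (by simp [Gate.str])
    | or a b => rw [hgg] at hg; exact absurd hg (by simp [Gate.str])
    | query k a =>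
      rw [hgg] at hg
      have := Option.some.inj hg
      rw [← this, List.length_ofFn]
      omega
  refine measurableSet_of_loc (K := {z : List Bool | z.length ≤ max Q Q'})
    (List.finite_length_le _ _) fun A A' h => ?_
  have h' : ∀ z : List Bool, z.length ≤ max Q Q' → A z = A' z := h
  show (∀ x, _) ↔ (∀ x, _)
  refine forall_congr' fun x => ?_
  rw [eval_congr C (A := A) (A' := A') fun z hz =>
      (h' z ((hstr C A x z hz).trans (le_max_left _ _))).symm,
    eval_congr U (A := A) (A' := A') fun z hz =>
      (h' z ((hstr U A x z hz).trans (le_max_right _ _))).symm]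

/-- If, for every block, a circuit agrees with `U` with probability at most `δ`, then it agrees
with `U` on all inputs with very small probability. -/
theorem circuit_prob {s' Q' : ℕ} (C : Circuit n s Q) (U : Circuit n s' Q') {b : ℕ}
    (hb : M * m ≤ 2 ^ b) {δ : ℝ} (hδ0 : 0 ≤ δ)
    (hδ : ∀ (w : Fin q → Bool) (A : Oracle), ((Finset.univ.filter fun f : Pt M m → Lb m =>
      C.eval (ovF b w f A) (pad n w) = U.eval (ovF b w f A) (pad n w)).card : ℝ) ≤
      δ * Fintype.card (Pt M m → Lb m)) (K : ℕ) (hK : K * (s + s') < 2 ^ q) :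
    prob {A : Oracle | ∀ x, C.eval A x = U.eval A x} ≤ δ ^ K := by
  classical
  have hinj : Function.Injective (posA b q M m) := posW_injective hb
  let i1 : DecidableEq (Fin q → Bool) := inferInstance
  let i2 : DecidableEq (Pt M m × Fin m) := inferInstance
  let i3 : DecidableEq ((Fin q → Bool) × (Pt M m × Fin m)) := instDecidableEqProd
  obtain ⟨S, hS⟩ : ∃ S : Set Oracle, S = {A : Oracle | ∀ x, C.eval A x = U.eval A x} := ⟨_, rfl⟩
  have hSm : MeasurableSet S := by rw [hS]; exact measurable_correct C U
  rw [← hS]
  refine prob_le_of_fiber hinj hSm fun A => ?_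
  let O : ((Fin q → Bool) × (Pt M m × Fin m) → Bool) → Oracle := fun ω =>
    ovw (posA b q M m) ω A
  obtain ⟨E, hE⟩ : ∃ E : (Fin q → Bool) → ((Fin q → Bool) × (Pt M m × Fin m) → Bool) → Prop,
      ∀ w ω, E w ω ↔ C.eval (O ω) (pad n w) = U.eval (O ω) (pad n w) :=
    ⟨_, fun _ _ => Iff.rfl⟩
  let τ : (Fin q → Bool) → ((Fin q → Bool) × (Pt M m × Fin m) → Bool) →
      Finset ((Fin q → Bool) × (Pt M m × Fin m)) := fun w ω =>
    Finset.univ.filter fun p => some (posA b q M m p) ∈
      asked C (O ω) (pad n w) ∪ asked U (O ω) (pad n w)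
  have h := product_bound' (E := E) (τ := τ) (D := s + s') ?_ ?_ hδ0 ?_ K (by
    rw [Fintype.card_fun, Fintype.card_bool, Fintype.card_fin]; exact hK)
  · refine le_trans ?_ h
    refine Nat.cast_le.2 (Finset.card_le_card ?_)
    intro ω hω
    have hω := (Finset.mem_filter.1 hω).2
    rw [hS] at hω
    exact Finset.mem_filter.2 ⟨Finset.mem_univ _, fun w => (hE w ω).2 (hω (pad n w))⟩
  · intro w ω
    have h1 : (τ w ω).card ≤ (asked C (O ω) (pad n w) ∪ asked U (O ω) (pad n w)).card := by
      refine Finset.card_le_card_of_injOn (fun p => some (posA b q M m p)) ?_ ?_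
      · intro p hp
        exact Finset.mem_coe.2 (Finset.mem_filter.1 (Finset.mem_coe.1 hp)).2
      · intro p _ p' _ hpp
        exact hinj (Option.some.inj hpp)
    exact h1.trans ((Finset.card_union_le _ _).trans (Nat.add_le_add (asked_card _ _ _)
      (asked_card _ _ _)))
  · intro w ω ω' hag
    have hag' : ∀ z, some z ∈ asked C (O ω) (pad n w) ∪ asked U (O ω) (pad n w) →
        O ω' z = O ω z := by
      intro z hz
      by_cases hex : ∃ p, posA b q M m p = z
      · obtain ⟨p, rfl⟩ := hex
        show ovw _ _ _ _ = ovw _ _ _ _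
        rw [ovw_pos hinj, ovw_pos hinj]
        exact hag p (Finset.mem_filter.2 ⟨Finset.mem_univ _, hz⟩)
      · push Not at hex
        show ovw _ _ _ _ = ovw _ _ _ _
        rw [ovw_off _ _ hex, ovw_off _ _ hex]
    have hC := asked_congr C (A := O ω) (A' := O ω') (x := pad n w)
      fun z hz => hag' z (Finset.mem_union_left _ hz)
    have hU := asked_congr U (A := O ω) (A' := O ω') (x := pad n w)
      fun z hz => hag' z (Finset.mem_union_right _ hz)
    have hC' := eval_congr C (A := O ω) (A' := O ω') (x := pad n w)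
      fun z hz => hag' z (Finset.mem_union_left _ hz)
    have hU' := eval_congr U (A := O ω) (A' := O ω') (x := pad n w)
      fun z hz => hag' z (Finset.mem_union_right _ hz)
    constructor
    · show (Finset.univ.filter fun p => some (posA b q M m p) ∈ _) =
        (Finset.univ.filter fun p => some (posA b q M m p) ∈ _)
      rw [hC, hU]
    · rw [hE, hE, hC', hU']
  · intro w ω
    have e2 : Fintype.card (Pt M m × Fin m → Bool) = Fintype.card (Pt M m → Lb m) :=
      Fintype.card_congr (Equiv.curry _ _ _)
    rw [e2]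
    refine le_trans (le_of_eq ?_) (hδ w (O ω))
    refine congrArg _ ?_
    refine Finset.card_bij' (fun g _ => fun p i => g (p, i)) (fun f _ => fun t => f t.1 t.2)
      ?_ ?_ ?_ ?_
    · intro g hg
      have hg := (hE _ _).1 (Finset.mem_filter.1 hg).2
      refine Finset.mem_filter.2 ⟨Finset.mem_univ _, ?_⟩
      have hg : C.eval (ovw (posA b q M m) (updB ω w g) A) (pad n w) =
        U.eval (ovw (posA b q M m) (updB ω w g) A) (pad n w) := hg
      rw [ovw_updB hb] at hg
      exact hg
    · intro f hf
      have hf := (Finset.mem_filter.1 hf).2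
      refine Finset.mem_filter.2 ⟨Finset.mem_univ _, (hE _ _).2 ?_⟩
      show C.eval (ovw (posA b q M m) (updB ω w fun t => f t.1 t.2) A) (pad n w) =
        U.eval (ovw (posA b q M m) (updB ω w fun t => f t.1 t.2) A) (pad n w)
      rw [ovw_updB hb]
      exact hf
    · intro g _
      rfl
    · intro f _
      rfl

end Pool.Agent.Q9h3.ROC
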