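import Pool.Agent.Q9h3.RO.LabCirc
import Pool.Agent.Q9h3.RO.Meas

/-!
# Circuits of small width are machines with few states
-/

namespace Pool.Agent.Q9h3.ROC

open Pool.Agent.H628R3.RO (Oracle)

variable {n s Q q M m : ℕ}

/-- the oracle `A`, where the values of the random function for the inputs starting with `w` are
given by `f` -/
noncomputable def ovF (b : ℕ) (w : Fin q → Bool) (f : Pt M m → Lb m) (A : Oracle) : Oracle :=
  ovw (posW b M w) (fun p => f p.1 p.2) A

theorem posW_inj_right {b : ℕ} (hb : M * m ≤ 2 ^ b) (w : Fin q → Bool) :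
    Function.Injective (posW (m := m) b M w) := fun _ _ h => (posW_inj hb h).2

theorem ovF_pos {b : ℕ} (hb : M * m ≤ 2 ^ b) (w : Fin q → Bool) (f : Pt M m → Lb m)
    (A : Oracle) (p : Pt M m × Fin m) : ovF b w f A (posW b M w p) = f p.1 p.2 :=
  ovw_pos (posW_inj_right hb w) _ A p

theorem fnO_ovF {b : ℕ} (hb : M * m ≤ 2 ^ b) (w : Fin q → Bool) (f : Pt M m → Lb m)
    (A : Oracle) : fnO b M (ovF b w f A) w = f := by
  funext p y
  exact ovF_pos hb w f A (p, y)

open Classical in
/-- the bit of the random function for which a gate asks -/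
noncomputable def quest (b : ℕ) (w : Fin q → Bool) (x : Fin n → Bool) (g : Gate n s Q)
    (σ : Fin s → Bool) : Option (Pt M m × Fin m) :=
  match g.str x σ with
  | none => none
  | some z => if h : ∃ p : Pt M m × Fin m, posW b M w p = z then some h.choose else none

theorem quest_some {b : ℕ} (hb : M * m ≤ 2 ^ b) {w : Fin q → Bool} {x : Fin n → Bool}
    {g : Gate n s Q} {σ : Fin s → Bool} {p : Pt M m × Fin m} :
    quest b w x g σ = some p ↔ g.str x σ = some (posW b M w p) := by
  unfold quest
  cases h : g.str x σ with
  | none => simp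
  | some z =>
    by_cases hz : ∃ p : Pt M m × Fin m, posW b M w p = z
    · simp only [dif_pos hz]
      have h1 := hz.choose_spec
      constructor
      · intro h2
        have h3 := Option.some.inj h2
        rw [← h3, h1]
      · intro h2
        have h3 := Option.some.inj h2
        rw [← h1] at h3
        rw [posW_inj_right hb w h3]
    · simp only [dif_neg hz]
      constructor
      · intro h2
        exact absurd h2 (by simp)
      · intro h2
        exact absurd ⟨p, (Option.some.inj h2).symm⟩ hz

theorem quest_none {b : ℕ} {w : Fin q → Bool} {x : Fin n → Bool}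
    {g : Gate n s Q} {σ : Fin s → Bool} {z : List Bool}
    (h : quest (M := M) (m := m) b w x g σ = none) (hz : g.str x σ = some z) :
    ∀ p : Pt M m × Fin m, posW b M w p ≠ z := by
  unfold quest at h
  rw [hz] at h
  intro p hp
  have h1 : ∃ p : Pt M m × Fin m, posW b M w p = z := ⟨p, hp⟩
  simp only [dif_pos h1] at h
  exact absurd h (by simp)

open Classical in
/-- The machine which evaluates a circuit gate by gate; its state at time `t` consists of the
values of the live gates. -/
noncomputable def circMach (C : Circuit n s Q) (b : ℕ) (w : Fin q → Bool) (x : Fin n → Bool)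
    (A : Oracle) : Mach M m where
  St := Fin s → Bool
  q t σ := if ht : t < s then quest b w x (C.gate ⟨t, ht⟩) σ else none
  nx t σ a h := if h ∈ C.live (t + 1) then
      (if h.val = t then
        (if (quest (M := M) (m := m) b w x (C.gate h) σ).isSome then a else (C.gate h).val A x σ)
      else σ h)
    else false
  R t := Fintype.piFinset fun h => if h ∈ C.live t then Finset.univ else {false}
  closed t σ a _ := by
    rw [Fintype.mem_piFinset]
    intro h
    by_cases hh : h ∈ C.live (t + 1)
    · rw [if_pos hh]
      exact Finset.mem_univ _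
    · rw [if_neg hh, if_neg hh]
      exact Finset.mem_singleton_self _

theorem circMach_card (C : Circuit n s Q) (b : ℕ) (w : Fin q → Bool) (x : Fin n → Bool)
    (A : Oracle) {W : ℕ} (hW : C.WidthLE W) (t : ℕ) :
    ((circMach (M := M) (m := m) C b w x A).R t).card ≤ 2 ^ W := by
  classical
  show (Fintype.piFinset fun h => if h ∈ C.live t then Finset.univ else {false}).card ≤ _
  rw [Fintype.card_piFinset]
  have h1 : ∀ h : Fin s, (if h ∈ C.live t then (Finset.univ : Finset Bool) else {false}).card =
      if h ∈ C.live t then 2 else 1 := by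
    intro h
    split_ifs <;> simp
  rw [Finset.prod_congr rfl fun h _ => h1 h, Finset.prod_ite, Finset.prod_const,
    Finset.prod_const_one, mul_one]
  refine Nat.pow_le_pow_right (by norm_num) ?_
  rw [Finset.filter_mem_eq_inter, Finset.univ_inter]
  exact hW t

theorem mem_live (C : Circuit n s Q) (t : ℕ) (h : Fin s) :
    h ∈ C.live t ↔ h.val < t ∧
      ((∃ g : Fin s, t ≤ g.val ∧ Wire.gate h ∈ (C.gate g).args) ∨ C.out = Wire.gate h) := by
  classical
  unfold Circuit.live
  rw [Finset.mem_filter]
  exact ⟨fun h => h.2, fun h => ⟨Finset.mem_univ _, h⟩⟩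

theorem circMach_run (C : Circuit n s Q) {b : ℕ} (hb : M * m ≤ 2 ^ b) (w : Fin q → Bool)
    (x : Fin n → Bool) (A : Oracle) (f : Pt M m → Lb m) (t : ℕ) (h : Fin s) :
    (circMach C b w x A).run f 0 (fun _ => false) t h =
      if h ∈ C.live t then C.val (ovF b w f A) x h else false := by
  classical
  induction t generalizing h with
  | zero =>
    rw [if_neg]
    · rfl
    · rw [mem_live]
      rintro ⟨h1, -⟩
      omega
  | succ t ih =>
    set σ := (circMach C b w x A).run f 0 (fun _ => false) t with hσ
    show (circMach C b w x A).nx (0 + t) σ (ans f ((circMach C b w x A).q (0 + t) σ)) h = _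
    rw [Nat.zero_add]
    show (if h ∈ C.live (t + 1) then
      (if h.val = t then
        (if (quest (M := M) (m := m) b w x (C.gate h) σ).isSome then
          (ans f ((circMach C b w x A).q t σ)) else (C.gate h).val A x σ)
      else σ h)
      else false) = _
    by_cases hh : h ∈ C.live (t + 1)
    · rw [if_pos hh, if_pos hh]
      obtain ⟨h1, h2⟩ := (mem_live C _ _).1 hh
      by_cases ht : h.val = t
      · rw [if_pos ht]
        have hts : t < s := ht ▸ h.2
        have hht : (⟨t, hts⟩ : Fin s) = h := Fin.ext ht.symm
        have hq : (circMach C b w x A).q t σ = quest b w x (C.gate h) σ := by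
          show (if ht : t < s then quest b w x (C.gate ⟨t, ht⟩) σ else none) = _
          rw [dif_pos hts, hht]
        rw [hq]
        have hargs : ∀ g, Wire.gate g ∈ (C.gate h).args → σ g = C.val (ovF b w f A) x g := by
          intro g hg
          rw [ih g, if_pos]
          rw [mem_live]
          have h3 : g.val < h.val := C.earlier h g hg
          exact ⟨by omega, Or.inl ⟨h, by omega, hg⟩⟩
        have hstr := Gate.str_congr (x := x) (C.gate h) hargs
        have hval := Gate.val_congr (A := A) (x := x) (C.gate h) hargs
        rw [C.val_eq]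
        cases hqq : quest (M := M) (m := m) b w x (C.gate h) σ with
        | none =>
          show (C.gate h).val A x σ = _
          rw [hval]
          cases hs : (C.gate h).str x (C.val (ovF b w f A) x) with
          | none => exact Gate.val_of_str_none hs
          | some z =>
            rw [Gate.val_of_str hs, Gate.val_of_str hs]
            have h4 := quest_none hqq (hstr.trans hs)
            exact (ovw_off _ A h4).symm
        | some p =>
          show f p.1 p.2 = _
          have h4 := (quest_some hb).1 hqq
          rw [hstr] at h4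
          rw [Gate.val_of_str h4, ovF_pos hb]
      · rw [if_neg ht, ih h, if_pos]
        rw [mem_live]
        refine ⟨by omega, ?_⟩
        rcases h2 with ⟨g, hg, hg'⟩ | h2
        · exact Or.inl ⟨g, by omega, hg'⟩
        · exact Or.inr h2
    · rw [if_neg hh, if_neg hh]

theorem circMach_out (C : Circuit n s Q) {b : ℕ} (hb : M * m ≤ 2 ^ b) (w : Fin q → Bool)
    (x : Fin n → Bool) (A : Oracle) (f : Pt M m → Lb m) :
    C.out.val x ((circMach C b w x A).run f 0 (fun _ => false) s) =
      C.eval (ovF b w f A) x := by
  refine Wire.val_congr _ fun g hg => ?_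
  rw [circMach_run C hb, if_pos]
  rw [mem_live]
  exact ⟨g.2, Or.inr hg⟩

theorem quest_congr {b : ℕ} {w : Fin q → Bool} {x : Fin n → Bool} {g : Gate n s Q}
    {σ σ' : Fin s → Bool} (h : g.str x σ = g.str x σ') :
    quest (M := M) (m := m) b w x g σ = quest b w x g σ' := by
  unfold quest
  rw [h]

/-- the vertices met by a circuit -/
theorem mem_hit_circ (C : Circuit n s Q) {b : ℕ} (hb : M * m ≤ 2 ^ b) (w : Fin q → Bool)
    (x : Fin n → Bool) (A : Oracle) (ch : Fin M → Bool → Fin M) (d : Lb m)
    (f : Pt M m → Lb m) (v : Fin M) :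
    v ∈ (circMach C b w x A).hit ch d f 0 (fun _ => false) s ↔
      ∃ g i, (C.gate g).str x (C.val (ovF b w f A) x) = some (posW b M w (pt ch d f v, i)) := by
  have key : ∀ g : Fin s, (circMach C b w x A).q g
      ((circMach C b w x A).run f 0 (fun _ => false) g) =
      quest (M := M) (m := m) b w x (C.gate g) (C.val (ovF b w f A) x) := by
    intro g
    set σ := (circMach C b w x A).run f 0 (fun _ => false) g with hσ
    have hq : (circMach C b w x A).q g σ = quest (M := M) (m := m) b w x (C.gate g) σ := by
      show (if ht : g.val < s then quest b w x (C.gate ⟨g.val, ht⟩) σ else none) = _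
      rw [dif_pos g.2]
    rw [hq]
    refine quest_congr (Gate.str_congr _ fun h hh => ?_)
    rw [hσ, circMach_run C hb, if_pos]
    rw [mem_live]
    exact ⟨C.earlier g h hh, Or.inl ⟨g, le_rfl, hh⟩⟩
  refine (Mach.mem_hit _ _ _ _ _ _ _ _).trans ?_
  constructor
  · rintro ⟨u, hu, i, h⟩
    rw [Nat.zero_add] at h
    refine ⟨⟨u, hu⟩, i, ?_⟩
    rw [← quest_some hb, ← key ⟨u, hu⟩]
    exact h
  · rintro ⟨g, i, h⟩
    refine ⟨g, g.2, i, ?_⟩
    rw [Nat.zero_add, key g, quest_some hb]
    exact h

end Pool.Agent.Q9h3.ROC
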