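import Pool.Agent.Q9h3.RO.PerCircuit

/-!
# The number of circuits, and the union bound
-/

namespace Pool.Agent.Q9h3.ROC

open MeasureTheory
open Pool.Agent.H628R3.RO (Oracle randomOracle prob)

variable {n s Q : ℕ}

/-- wires as elements of a sum -/
def wireEquiv : Wire n s ≃ Bool ⊕ (Fin n ⊕ Fin s) where
  toFun
    | .const b => Sum.inl b
    | .input i => Sum.inr (Sum.inl i)
    | .gate g => Sum.inr (Sum.inr g)
  invFun
    | Sum.inl b => .const b
    | Sum.inr (Sum.inl i) => .input i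
    | Sum.inr (Sum.inr g) => .gate g
  left_inv a := by cases a <;> rfl
  right_inv a := by rcases a with b | i | g <;> rfl

noncomputable instance : Fintype (Wire n s) := Fintype.ofEquiv _ wireEquiv.symm

theorem card_wire : Fintype.card (Wire n s) = 2 + n + s := by
  rw [Fintype.card_congr wireEquiv, Fintype.card_sum, Fintype.card_sum, Fintype.card_bool,
    Fintype.card_fin, Fintype.card_fin]
  ring

/-- gates as elements of a sum -/
def gateEquiv : Gate n s Q ≃ Wire n s ⊕ ((Wire n s × Wire n s) ⊕ ((Wire n s × Wire n s) ⊕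
    (Σ k : Fin (Q + 1), Fin k → Wire n s))) where
  toFun
    | .not a => Sum.inl a
    | .and a b => Sum.inr (Sum.inl (a, b))
    | .or a b => Sum.inr (Sum.inr (Sum.inl (a, b)))
    | .query k a => Sum.inr (Sum.inr (Sum.inr ⟨k, a⟩))
  invFun
    | Sum.inl a => .not a
    | Sum.inr (Sum.inl (a, b)) => .and a b
    | Sum.inr (Sum.inr (Sum.inl (a, b))) => .or a b
    | Sum.inr (Sum.inr (Sum.inr ⟨k, a⟩)) => .query k a
  left_inv a := by cases a <;> rfl
  right_inv a := by rcases a with a | ⟨a, b⟩ | ⟨a, b⟩ | ⟨k, a⟩ <;> rfl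

noncomputable instance : Fintype (Gate n s Q) := Fintype.ofEquiv _ gateEquiv.symm

theorem card_gate_le {w : ℕ} (hw : Fintype.card (Wire n s) ≤ 2 ^ w) (hQ : Q + 4 ≤ 2 ^ w) :
    Fintype.card (Gate n s Q) ≤ 2 ^ (w * (Q + 3)) := by
  have hW : 1 ≤ Fintype.card (Wire n s) := by rw [card_wire]; omega
  rw [Fintype.card_congr gateEquiv, Fintype.card_sum, Fintype.card_sum, Fintype.card_sum,
    Fintype.card_prod, Fintype.card_sigma]
  set W := Fintype.card (Wire n s) with hWdef
  have h1 : ∑ k : Fin (Q + 1), Fintype.card (Fin k → Wire n s) ≤ (Q + 1) * W ^ (Q + 2) := by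
    calc _ ≤ ∑ _k : Fin (Q + 1), W ^ (Q + 2) := Finset.sum_le_sum fun k _ => by
            rw [Fintype.card_fun, Fintype.card_fin]
            exact Nat.pow_le_pow_right hW (by omega)
      _ = _ := by rw [Finset.sum_const, Finset.card_univ, Fintype.card_fin, smul_eq_mul]
  have h2 : W ≤ W ^ (Q + 2) := by
    calc W = W ^ 1 := (pow_one _).symm
      _ ≤ _ := Nat.pow_le_pow_right hW (by omega)
  have h3 : W * W ≤ W ^ (Q + 2) := by
    calc W * W = W ^ 2 := (sq W).symm
      _ ≤ _ := Nat.pow_le_pow_right hW (by omega)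
  calc _ ≤ W ^ (Q + 2) + (W ^ (Q + 2) + (W ^ (Q + 2) + (Q + 1) * W ^ (Q + 2))) := by omega
    _ = (Q + 4) * W ^ (Q + 2) := by ring
    _ ≤ 2 ^ w * (2 ^ w) ^ (Q + 2) := Nat.mul_le_mul hQ (Nat.pow_le_pow_left hw _)
    _ = 2 ^ (w * (Q + 3)) := by rw [← pow_mul, ← pow_add]; congr 1; ring

theorem circuit_code_inj :
    Function.Injective fun C : Circuit n s Q => (C.gate, C.out) := by
  rintro ⟨g, o, e⟩ ⟨g', o', e'⟩ h
  have h1 : g = g' := congrArg Prod.fst h
  have h2 : o = o' := congrArg Prod.snd h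
  subst h1
  subst h2
  rfl

noncomputable instance : Fintype (Circuit n s Q) := Fintype.ofInjective _ circuit_code_inj

theorem card_circuit_le {w : ℕ} (hw : Fintype.card (Wire n s) ≤ 2 ^ w) (hQ : Q + 4 ≤ 2 ^ w) :
    Fintype.card (Circuit n s Q) ≤ 2 ^ (w * (Q + 3) * s + w) := by
  refine (Fintype.card_le_of_injective _ circuit_code_inj).trans ?_
  rw [Fintype.card_prod, Fintype.card_fun, Fintype.card_fin, pow_add, pow_mul]
  exact Nat.mul_le_mul (Nat.pow_le_pow_left (card_gate_le hw hQ) _) hw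

/-- the union bound over all circuits with at most `S` gates and fan-in at most `S` -/
theorem union_bound {S s' Q' q b M m : ℕ} (U : Circuit n s' Q') (hb : M * m ≤ 2 ^ b)
    (P : ∀ s Q, Circuit n s Q → Prop) (hn : n ≤ S) (hs' : s' ≤ S) (hS : 6 ≤ S)
    (hq : 18 * S ^ 4 < 2 ^ q)
    (hP : ∀ s Q C, s ≤ S → P s Q C → ∀ (w : Fin q → Bool) (A : Oracle),
      ((Finset.univ.filter fun f : Pt M m → Lb m =>
        C.eval (ovF b w f A) (pad n w) = U.eval (ovF b w f A) (pad n w)).card : ℝ) ≤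
      3 / 4 * Fintype.card (Pt M m → Lb m)) :
    randomOracle {A | ∃ s ≤ S, ∃ Q ≤ S, ∃ C : Circuit n s Q, P s Q C ∧
      ∀ x, C.eval A x = U.eval A x} ≤ ENNReal.ofReal ((1 / 2) ^ (S ^ 3)) := by
  classical
  set K := 9 * S ^ 3 with hK
  let I : Type := Σ s : Fin (S + 1), Σ Q : Fin (S + 1), Circuit n s Q
  let ev : I → Set Oracle := fun t =>
    {A | P t.1 t.2.1 t.2.2 ∧ ∀ x, t.2.2.eval A x = U.eval A x}
  have hsub : {A | ∃ s ≤ S, ∃ Q ≤ S, ∃ C : Circuit n s Q, P s Q C ∧
      ∀ x, C.eval A x = U.eval A x} ⊆ ⋃ t : I, ev t := by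
    rintro A ⟨s, hs, Q, hQ, C, h1, h2⟩
    exact Set.mem_iUnion.2 ⟨⟨⟨s, by omega⟩, ⟨Q, by omega⟩, C⟩, h1, h2⟩
  have hone : ∀ t : I, randomOracle (ev t) ≤ ENNReal.ofReal ((3 / 4) ^ K) := by
    rintro ⟨s, Q, C⟩
    by_cases hp : P s Q C
    · have h1 : prob {A : Oracle | ∀ x, C.eval A x = U.eval A x} ≤ (3 / 4) ^ K := by
        refine circuit_prob C U hb (by norm_num) (hP s Q C (by omega) hp) K ?_
        refine lt_of_le_of_lt ?_ hq
        have h2 : (s : ℕ) + s' ≤ 2 * S := by omega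
        calc K * (s + s') ≤ K * (2 * S) := Nat.mul_le_mul_left _ h2
          _ = 18 * S ^ 4 := by rw [hK]; ring
      calc randomOracle (ev ⟨s, Q, C⟩) ≤
          randomOracle {A : Oracle | ∀ x, C.eval A x = U.eval A x} :=
            measure_mono fun A hA => hA.2
        _ = ENNReal.ofReal (prob {A : Oracle | ∀ x, C.eval A x = U.eval A x}) := by
            rw [prob, ofReal_measureReal]
        _ ≤ _ := ENNReal.ofReal_le_ofReal h1
    · have : ev ⟨s, Q, C⟩ = ∅ := by
        ext A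
        constructor
        · intro h; exact absurd h.1 hp
        · intro h; exact absurd h (Set.notMem_empty _)
      rw [this, measure_empty]
      exact zero_le
  have hcard : Fintype.card I ≤ 2 ^ (2 * S ^ 3) := by
    have hcirc : ∀ s Q : Fin (S + 1), Fintype.card (Circuit n s Q) ≤
        2 ^ ((S + 1) * (S + 3) * S + (S + 1)) := by
      intro s Q
      have hlt : S + 1 ≤ 2 ^ S := Nat.lt_two_pow_self
      have h6 : S + 4 ≤ 2 ^ (S + 1) := by rw [pow_succ]; omega
      have hs := s.2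
      have hQ := Q.2
      refine (card_circuit_le (w := S + 1) ?_ ?_).trans ?_
      · rw [card_wire, pow_succ]
        omega
      · omega
      · refine Nat.pow_le_pow_right (by norm_num) ?_
        refine Nat.add_le_add_right (Nat.mul_le_mul (Nat.mul_le_mul_left _ ?_) ?_) _ <;> omega
    rw [Fintype.card_sigma]
    calc ∑ s : Fin (S + 1), Fintype.card (Σ Q : Fin (S + 1), Circuit n s Q) ≤
        ∑ _s : Fin (S + 1), (S + 1) * 2 ^ ((S + 1) * (S + 3) * S + (S + 1)) := by
          refine Finset.sum_le_sum fun s _ => ?_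
          rw [Fintype.card_sigma]
          refine (Finset.sum_le_sum fun Q _ => hcirc s Q).trans (le_of_eq ?_)
          rw [Finset.sum_const, Finset.card_univ, Fintype.card_fin, smul_eq_mul]
      _ = (S + 1) * ((S + 1) * 2 ^ ((S + 1) * (S + 3) * S + (S + 1))) := by
          rw [Finset.sum_const, Finset.card_univ, Fintype.card_fin, smul_eq_mul]
      _ ≤ 2 ^ S * (2 ^ S * 2 ^ ((S + 1) * (S + 3) * S + (S + 1))) := by
          have hlt : S + 1 ≤ 2 ^ S := Nat.lt_two_pow_self
          exact Nat.mul_le_mul hlt (Nat.mul_le_mul_right _ hlt)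
      _ = 2 ^ (S + (S + ((S + 1) * (S + 3) * S + (S + 1)))) := by rw [← pow_add, ← pow_add]
      _ ≤ 2 ^ (2 * S ^ 3) := by
          refine Nat.pow_le_pow_right (by norm_num) ?_
          have h1 : 6 * (S * S) ≤ S * (S * S) := Nat.mul_le_mul_right _ hS
          have h2 : 6 * S ≤ S * S := Nat.mul_le_mul_right _ hS
          nlinarith
  calc randomOracle {A | ∃ s ≤ S, ∃ Q ≤ S, ∃ C : Circuit n s Q, P s Q C ∧
      ∀ x, C.eval A x = U.eval A x} ≤ randomOracle (⋃ t : I, ev t) := measure_mono hsub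
    _ ≤ ∑ t : I, randomOracle (ev t) := measure_iUnion_fintype_le _ _
    _ ≤ ∑ _t : I, ENNReal.ofReal ((3 / 4) ^ K) := Finset.sum_le_sum fun t _ => hone t
    _ = Fintype.card I * ENNReal.ofReal ((3 / 4) ^ K) := by
        rw [Finset.sum_const, Finset.card_univ, nsmul_eq_mul]
    _ = ENNReal.ofReal (Fintype.card I * (3 / 4) ^ K) := by
        rw [ENNReal.ofReal_mul (by positivity), ENNReal.ofReal_natCast]
    _ ≤ _ := by
        refine ENNReal.ofReal_le_ofReal ?_
        have h1 : (Fintype.card I : ℝ) ≤ 2 ^ (2 * S ^ 3) := by exact_mod_cast hcard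
        have h2 : ((3 : ℝ) / 4) ^ K ≤ (1 / 8) ^ (S ^ 3) := by
          rw [hK, pow_mul]
          refine pow_le_pow_left₀ (by positivity) ?_ _
          norm_num
        have h3 : (2 : ℝ) ^ (2 * S ^ 3) * (1 / 8) ^ (S ^ 3) = (1 / 2) ^ (S ^ 3) := by
          rw [pow_mul, ← mul_pow]
          norm_num
        calc (Fintype.card I : ℝ) * (3 / 4) ^ K ≤ 2 ^ (2 * S ^ 3) * (1 / 8) ^ (S ^ 3) :=
              mul_le_mul h1 h2 (by positivity) (by positivity)
          _ = _ := h3

end Pool.Agent.Q9h3.ROC
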